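import Pool.Agent.P.MP_a54059_lc.Restrict

/-! Asymptotics of the two lower bounds. -/

namespace Pool.Agent.P.MP_a54059_lc

open Finset

lemma sigma_ok : Real.exp ((0.4328 : ℝ) - 1) ≤ 1 - 0.4328 := by
  have h := Real.sum_le_exp_of_nonneg (show (0 : ℝ) ≤ 0.5672 by norm_num) 7
  have e : Real.exp ((0.4328 : ℝ) - 1) = (Real.exp 0.5672)⁻¹ := by
    rw [← Real.exp_neg]; norm_num
  rw [e, inv_le_comm₀ (Real.exp_pos _) (by norm_num)]
  refine le_trans ?_ h
  norm_num [Finset.sum_range_succ, Nat.factorial]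

lemma beta_ok : (1.5415 : ℝ) ≤ Real.exp 0.4328 := by
  have h := Real.sum_le_exp_of_nonneg (show (0 : ℝ) ≤ 0.4328 by norm_num) 7
  refine le_trans ?_ h
  norm_num [Finset.sum_range_succ, Nat.factorial]

lemma top_bound {σ β : ℝ} (h1 : 1 / 3 ≤ σ) (h2 : σ ≤ 1 / 2) (h3 : Real.exp (σ - 1) ≤ 1 - σ)
    (hβ : β ≤ Real.exp σ) {k : ℕ} (hk : 0 < k) {n a b t r : ℕ}
    (P N : Fin a → Finset (Fin n)) (M : Fin b → Finset (Fin a))
    (hc : ∀ X : Finset (Fin n),
      (∃ j, ∀ i ∈ M j, (∃ v ∈ P i, v ∈ X) ∨ (∃ v ∈ N i, v ∉ X)) ↔ t ≤ X.card)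
    (R : Finset (Fin n)) (hR : R.card + r = t) (htn : t ≤ n) (hr : 1 ≤ r)
    (hrL : (r : ℝ) ≤ β * ((n - t + 1 : ℕ) / k))
    (hshort : ∀ i, Disjoint (P i) R → (P i).card ≤ k) :
    1 ≤ (b : ℝ) * r * Real.exp (σ * (((n - t + 1 : ℕ) + r) / k) + 1 - r) := by
  have hk' : (0 : ℝ) < k := by exact_mod_cast hk
  have hcb := cover_bound (good_exp h1 h2 h3 hk) P N M hc R hR hshort
  set N' : ℕ := n - t + 1 with hN'
  set L : ℝ := N' / k with hL
  have hN'pos : (0 : ℝ) < N' := by exact_mod_cast (by omega : 0 < N')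
  have hLpos : 0 < L := by positivity
  have hm : n - R.card + 1 - r = N' := by omega
  have hch : (N' : ℝ) ^ r / r.factorial ≤ ((n - R.card).choose r : ℝ) := by
    have := Nat.pow_le_choose (α := ℝ) r (n - R.card)
    rw [hm] at this
    exact_mod_cast this
  have hBk : Real.exp (σ / k) ^ k = Real.exp σ := by
    rw [← Real.exp_nat_mul]; congr 1; field_simp
  have hBm : Real.exp (σ / k) ^ (n - R.card) ≤ Real.exp (σ * ((N' + r) / k)) := by
    rw [← Real.exp_nat_mul]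
    apply Real.exp_le_exp.2
    have : ((n - R.card : ℕ) : ℝ) ≤ N' + r := by exact_mod_cast (by omega : n - R.card ≤ N' + r)
    have h0 : 0 ≤ σ / k := by positivity
    calc ((n - R.card : ℕ) : ℝ) * (σ / k) ≤ (N' + r) * (σ / k) := by gcongr
      _ = _ := by ring
  have hst := factorial_le_stir r hr
  have hrr : (r : ℝ) ^ r ≤ (Real.exp σ * L) ^ r := by
    gcongr
    exact hrL.trans (by gcongr)
  have hfpos : (0 : ℝ) < r.factorial := by positivity
  rw [hBk] at hcb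
  have h5 : (N' : ℝ) ^ r ≤ b * ((k / Real.exp σ) ^ r * Real.exp (σ * ((N' + r) / k)))
      * (r * (Real.exp σ * L) ^ r * Real.exp (1 - r)) := by
    calc (N' : ℝ) ^ r ≤ ((n - R.card).choose r : ℝ) * r.factorial := (div_le_iff₀ hfpos).1 hch
      _ ≤ (b * ((k / Real.exp σ) ^ r * Real.exp (σ / k) ^ (n - R.card))) * r.factorial := by gcongr
      _ ≤ _ := by
        gcongr
        exact hst.trans (by gcongr)
  have e1 : (k / Real.exp σ) ^ r * (Real.exp σ * L) ^ r = (N' : ℝ) ^ r := by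
    rw [← mul_pow]; congr 1; rw [hL]; field_simp
  have e2 : Real.exp (σ * ((N' + r) / k) + 1 - r)
      = Real.exp (σ * ((N' + r) / k)) * Real.exp (1 - r) := by
    rw [← Real.exp_add]; congr 1; ring
  rw [e2]
  have hpos : (0 : ℝ) < (N' : ℝ) ^ r := by positivity
  apply le_of_mul_le_mul_left _ hpos
  calc (N' : ℝ) ^ r * 1 = (N' : ℝ) ^ r := mul_one _
    _ ≤ _ := h5
    _ = ((k / Real.exp σ) ^ r * (Real.exp σ * L) ^ r)
        * (b * r * (Real.exp (σ * ((N' + r) / k)) * Real.exp (1 - r))) := by ring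
    _ = _ := by rw [e1]

theorem sigma_bound {n : ℕ} (hn : 10 ^ 18 ≤ n) {t : ℕ} (ht1 : n ≤ 2 * t) (ht2 : 2 * t ≤ n + 2)
    {a b : ℕ} (P N : Fin a → Finset (Fin n)) (M : Fin b → Finset (Fin a))
    (hc : ∀ X : Finset (Fin n),
      (∃ j, ∀ i ∈ M j, (∃ v ∈ P i, v ∈ X) ∨ (∃ v ∈ N i, v ∉ X)) ↔ t ≤ X.card) :
    (2 : ℝ) ^ (0.894 * √n) ≤ a + b := by
  by_contra hcon
  push Not at hcon
  set y : ℝ := √n with hy
  have hn' : (10 : ℝ) ^ 18 ≤ n := by exact_mod_cast hn
  have hyy : y ^ 2 = n := Real.sq_sqrt (by positivity)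
  have hy9 : (10 : ℝ) ^ 9 ≤ y := Real.le_sqrt_of_sq_le (by linarith)
  set k : ℕ := ⌈0.894 * y⌉₊ + 10 with hk
  have hk1 : 0.894 * y + 10 ≤ k := by
    have := Nat.le_ceil (0.894 * y); rw [hk]; push_cast; linarith
  have hk2 : (k : ℝ) ≤ 0.894 * y + 11 := by
    have := Nat.ceil_lt_add_one (show 0 ≤ 0.894 * y by positivity); rw [hk]; push_cast; linarith
  have hkpos : (0 : ℝ) < k := by linarith
  have htn : t ≤ n := by omega
  set N' : ℕ := n - t + 1 with hN'
  have hN1 : (n : ℝ) ≤ 2 * N' := by exact_mod_cast (by omega : n ≤ 2 * N')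
  have hN2 : 2 * (N' : ℝ) ≤ n + 2 := by exact_mod_cast (by omega : 2 * N' ≤ n + 2)
  set L : ℝ := N' / k with hL
  have hLk : L * k = N' := by rw [hL]; field_simp
  have hL0 : 0 ≤ L := by positivity
  have hL1 : y / 2 ≤ L := by
    rw [hL, le_div_iff₀ hkpos]; nlinarith
  have hL2 : L ≤ y := by
    rw [hL, div_le_iff₀ hkpos]; nlinarith
  set r : ℕ := ⌊1.5415 * L⌋₊ with hr
  have hr1 : (r : ℝ) ≤ 1.5415 * L := Nat.floor_le (by positivity)
  have hr2 : 1.5415 * L < r + 1 := Nat.lt_floor_add_one _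
  have hr3 : 1 ≤ r := by
    have : (1 : ℝ) ≤ r := by linarith
    exact_mod_cast this
  have hr4 : r ≤ t := by
    have h1 : (n : ℝ) ≤ 2 * t := by exact_mod_cast ht1
    have : (r : ℝ) ≤ t := by nlinarith
    exact_mod_cast this
  have ha : (a : ℝ) < 2 ^ (0.894 * y) := by
    have : (0 : ℝ) ≤ b := by positivity
    linarith
  have hb : (b : ℝ) < 2 ^ (0.894 * y) := by
    have : (0 : ℝ) ≤ a := by positivity
    linarith
  have hnpos : (0 : ℝ) < n := by linarith
  have hres : a * (n - (t - r)) ^ (k + 1) < n ^ (k + 1) := by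
    have h1 : ((n - (t - r) : ℕ) : ℝ) ≤ n / 2 * Real.exp (2 * r / n) := by
      have h2 : 2 * ((n - (t - r) : ℕ) : ℝ) ≤ n + 2 * r := by
        exact_mod_cast (by omega : 2 * (n - (t - r)) ≤ n + 2 * r)
      have h3 := Real.add_one_le_exp (2 * (r : ℝ) / n)
      calc ((n - (t - r) : ℕ) : ℝ) ≤ n / 2 * (2 * r / n + 1) := by
            have : (n : ℝ) / 2 * (2 * r / n + 1) = (n + 2 * r) / 2 := by field_simp; ring
            rw [this]; linarith
        _ ≤ _ := by gcongr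
    have h4 : Real.exp (2 * r / n) ^ (k + 1) ≤ 2 ^ 11 := by
      rw [← Real.exp_nat_mul]
      have h5 : ((k + 1 : ℕ) : ℝ) * (2 * r / n) ≤ 7 := by
        push_cast
        rw [← mul_div_assoc, div_le_iff₀ hnpos]
        have h6 : (r : ℝ) * k ≤ 1.5415 * N' := by rw [← hLk]; nlinarith
        have h7 : (r : ℝ) ≤ r * k := by nlinarith
        nlinarith
      refine (Real.exp_le_exp.2 h5).trans ?_
      have h8 : Real.exp 7 = Real.exp 1 ^ 7 := by rw [← Real.exp_nat_mul]; norm_num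
      rw [h8]
      have := Real.exp_one_lt_d9
      calc Real.exp 1 ^ 7 ≤ 2.8 ^ 7 := by gcongr; linarith
        _ ≤ 2 ^ 11 := by norm_num
    have h9 : (2 : ℝ) ^ (0.894 * y) * 2 ^ 11 ≤ 2 ^ (k + 1) := by
      rw [← Real.rpow_natCast, ← Real.rpow_natCast, ← Real.rpow_add (by norm_num)]
      apply Real.rpow_le_rpow_of_exponent_le (by norm_num)
      push_cast; linarith
    have h10 : (a : ℝ) * ((n - (t - r) : ℕ) : ℝ) ^ (k + 1) < (n : ℝ) ^ (k + 1) := by
      calc (a : ℝ) * ((n - (t - r) : ℕ) : ℝ) ^ (k + 1)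
          ≤ a * (n / 2 * Real.exp (2 * r / n)) ^ (k + 1) := by gcongr
        _ = a * Real.exp (2 * r / n) ^ (k + 1) * (n / 2) ^ (k + 1) := by rw [mul_pow]; ring
        _ ≤ a * 2 ^ 11 * (n / 2) ^ (k + 1) := by gcongr
        _ < 2 ^ (0.894 * y) * 2 ^ 11 * (n / 2) ^ (k + 1) := by gcongr
        _ ≤ 2 ^ (k + 1) * (n / 2) ^ (k + 1) := by gcongr
        _ = (n : ℝ) ^ (k + 1) := by rw [← mul_pow]; congr 1; ring
    exact_mod_cast h10
  obtain ⟨R, hR, hshort⟩ := exists_restriction P (by omega : t - r ≤ n) hres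
  have htb := top_bound (σ := 0.4328) (by norm_num) (by norm_num) sigma_ok beta_ok
    (by omega : 0 < k) P N M hc R (by omega) htn hr3 hr1 hshort
  rw [← hN'] at htb
  have hrpos : (0 : ℝ) < r := by exact_mod_cast hr3
  have hlog : Real.log r ≤ r / 100000 + 100000 := by
    have h1 := Real.log_le_sub_one_of_pos (show (0 : ℝ) < r / 100000 by positivity)
    rw [Real.log_div hrpos.ne' (by norm_num)] at h1
    have h2 := Real.log_le_sub_one_of_pos (show (0 : ℝ) < 100000 by norm_num)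
    linarith
  have e1 : (2 : ℝ) ^ (0.894 * y) = Real.exp (Real.log 2 * (0.894 * y)) :=
    Real.rpow_def_of_pos (by norm_num) _
  have hlt : 1 < Real.exp (Real.log 2 * (0.894 * y) + Real.log r
      + (0.4328 * ((N' + r) / k) + 1 - r)) := by
    rw [Real.exp_add, Real.exp_add, ← e1, Real.exp_log hrpos]
    refine htb.trans_lt ?_
    gcongr
  rw [Real.one_lt_exp_iff] at hlt
  have hl2 := Real.log_two_lt_d9
  have e2 : ((N' : ℝ) + r) / k = L + r / k := by rw [hL]; ring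
  have hrk : (r : ℝ) / k ≤ 2 := by rw [div_le_iff₀ hkpos]; linarith
  rw [e2] at hlt
  have h11 : 1.1087 * L < 0.61971 * y + 100003 := by nlinarith
  have h12 : 1.1087 * L * k < (0.61971 * y + 100003) * (0.894 * y + 11) := by
    calc 1.1087 * L * k < (0.61971 * y + 100003) * k := by gcongr
      _ ≤ _ := by gcongr
  nlinarith

end Pool.Agent.P.MP_a54059_lc
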