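import Mathlib

/-!
Counting families of `r`-sets without a small limit.

A family `F` of `r`-subsets of `U` is `k`-hit if every `S ⊆ U` with fewer than `r` elements has a
window `C ⊆ U \ S` of at most `k` points met by all members of `F` containing `S`.
We bound `|F|` by a weighted search tree with a last-owner potential.
-/

namespace Pool.Agent.P.MP_a54059_lc

open Finset

variable {α : Type*} [DecidableEq α]

/-- the points of `U \ S` whose last owner is `i` -/
def fib (U S : Finset α) (own : α → ℕ) (i : ℕ) : Finset α :=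
  (U \ S).filter (fun v => own v = i)

/-- weight attached to owner `i` (index `0` is the pool of fresh points) -/
noncomputable def wt (i a : ℕ) : ℝ := if i = 0 then 1 else 1 / ((a : ℝ) + 1)

/-- potential attached to owner `i` -/
noncomputable def pot (B : ℝ) (χ : ℕ → ℕ → ℝ) (i b x : ℕ) : ℝ :=
  if i = 0 then B ^ x else χ b x

/-- the conditions on a potential -/
structure Good (k : ℕ) (B : ℝ) (χ : ℕ → ℕ → ℝ) : Prop where
  k_pos : 0 < k
  one_le : 1 ≤ B
  short : B * (1 - 1 / (k : ℝ)) ≤ 1
  fresh : ∀ x, x + 1 ≤ k → χ 0 x ≤ 1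
  low : ∀ b x, b + x + 1 ≤ k → 1 / ((b : ℝ) + 1) ≤ χ b x
  anti : ∀ b x, b + x + 2 ≤ k → χ (b + 1) x ≤ χ b x
  step : ∀ b x s, 1 ≤ s → b + x + s + 1 ≤ k →
    B ^ s * ((1 - (s : ℝ) / k) * χ b x + (s : ℝ) / k * χ (b + 1) x) ≤ χ b (x + s)

lemma wt_nonneg (i a : ℕ) : 0 ≤ wt i a := by
  unfold wt; split_ifs <;> positivity

lemma wt_anti (i : ℕ) {a a' : ℕ} (h : a ≤ a') : wt i a' ≤ wt i a := by
  unfold wt; split_ifs
  · exact le_rfl
  · apply one_div_le_one_div_of_le (by positivity)
    have : (a : ℝ) ≤ a' := by exact_mod_cast h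
    linarith

lemma one_sub_sum_le_prod {ι : Type*} (s : Finset ι) (u : ι → ℝ) (h0 : ∀ i ∈ s, 0 ≤ u i)
    (h1 : ∀ i ∈ s, u i ≤ 1) : 1 - ∑ i ∈ s, u i ≤ ∏ i ∈ s, (1 - u i) := by
  classical
  induction s using Finset.induction_on with
  | empty => simp
  | insert a s ha ih =>
    rw [Finset.sum_insert ha, Finset.prod_insert ha]
    have ih' := ih (fun i hi => h0 i (Finset.mem_insert_of_mem hi))
      (fun i hi => h1 i (Finset.mem_insert_of_mem hi))
    have a0 := h0 a (Finset.mem_insert_self _ _)
    have a1 := h1 a (Finset.mem_insert_self _ _)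
    have s0 : 0 ≤ ∑ i ∈ s, u i :=
      Finset.sum_nonneg (fun i hi => h0 i (Finset.mem_insert_of_mem hi))
    nlinarith [mul_le_mul_of_nonneg_left ih' (sub_nonneg.2 a1), mul_nonneg a0 s0]

lemma fib_step_old {U S C : Finset α} {own : α → ℕ} {j i : ℕ} {v : α} (hv : v ∈ C)
    (hi : i < j) :
    fib U (insert v S) (fun w => if w ∈ C then j else own w) i = fib U S own i \ C := by
  ext w
  simp only [fib, mem_filter, mem_sdiff, mem_insert, not_or]
  constructor
  · rintro ⟨⟨hU, -, hS⟩, h⟩
    by_cases hw : w ∈ C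
    · simp only [hw, if_true] at h; omega
    · simp only [hw, if_false] at h; exact ⟨⟨⟨hU, hS⟩, h⟩, hw⟩
  · rintro ⟨⟨⟨hU, hS⟩, h⟩, hw⟩
    refine ⟨⟨hU, ?_, hS⟩, by simp only [hw, if_false]; exact h⟩
    rintro rfl; exact hw hv

lemma fib_step_new {U S C : Finset α} {own : α → ℕ} {j : ℕ} {v : α} (hC : C ⊆ U \ S)
    (hown : ∀ w, own w < j) :
    fib U (insert v S) (fun w => if w ∈ C then j else own w) j = C.erase v := by
  ext w
  simp only [fib, mem_filter, mem_sdiff, mem_insert, not_or, mem_erase]
  constructor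
  · rintro ⟨⟨-, hv, -⟩, h⟩
    by_cases hw : w ∈ C
    · exact ⟨hv, hw⟩
    · simp only [hw, if_false] at h; have := hown w; omega
  · rintro ⟨hv, hw⟩
    have := mem_sdiff.1 (hC hw)
    exact ⟨⟨this.1, hv, this.2⟩, by simp only [hw, if_true]⟩

lemma Good.pot_pos {k : ℕ} {B : ℝ} {χ : ℕ → ℕ → ℝ} (h : Good k B χ) {i b x : ℕ}
    (hb : i ≠ 0 → b + x + 1 ≤ k) : 0 < pot B χ i b x := by
  unfold pot; split_ifs with hi
  · have := h.one_le; positivity
  · exact lt_of_lt_of_le (by positivity) (h.low b x (hb hi))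

lemma Good.short_pow {k : ℕ} {B : ℝ} {χ : ℕ → ℕ → ℝ} (h : Good k B χ) (z : ℕ) :
    B ^ z * (1 - (z : ℝ) / k) ≤ 1 := by
  have hk : (1 : ℝ) ≤ k := by exact_mod_cast h.k_pos
  have h1 : (0 : ℝ) ≤ 1 - 1 / (k : ℝ) := by
    rw [sub_nonneg, div_le_one (by linarith)]; exact hk
  have h2 : 1 + (z : ℝ) * (-(1 / (k : ℝ))) ≤ (1 + -(1 / (k : ℝ))) ^ z :=
    one_add_mul_le_pow (by linarith) z
  have hB : 0 ≤ B := by linarith [h.one_le]
  calc B ^ z * (1 - (z : ℝ) / k) ≤ B ^ z * (1 - 1 / (k : ℝ)) ^ z := by
        apply mul_le_mul_of_nonneg_left _ (by positivity)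
        have e1 : 1 - (z : ℝ) / k = 1 + (z : ℝ) * (-(1 / (k : ℝ))) := by ring
        have e2 : 1 - 1 / (k : ℝ) = 1 + -(1 / (k : ℝ)) := by ring
        rw [e1, e2]; exact h2
    _ = (B * (1 - 1 / (k : ℝ))) ^ z := by rw [mul_pow]
    _ ≤ 1 := pow_le_one₀ (mul_nonneg hB h1) h.short

/-- the one-step inequality for the potential -/
lemma Good.step_sum {k : ℕ} {B : ℝ} {χ : ℕ → ℕ → ℝ} (h : Good k B χ) {U S C : Finset α}
    {own : α → ℕ} {b : ℕ → ℕ} {j : ℕ} (hC : C ⊆ U \ S) (hCk : C.card ≤ k)
    (hown : ∀ w, own w < j)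
    (hb : ∀ i, i ≠ 0 → i < j → b i + (fib U S own i).card + 1 ≤ k) :
    ∑ v ∈ C, ∏ i ∈ range j,
        pot B χ i (b i + if own v = i then 1 else 0) (fib U S own i \ C).card
      ≤ k / B ^ k * ∏ i ∈ range j, pot B χ i (b i) (fib U S own i).card := by
  have hk : (0 : ℝ) < k := by exact_mod_cast h.k_pos
  have hB : 0 < B := by linarith [h.one_le]
  set x : ℕ → ℕ := fun i => (fib U S own i \ C).card with hx
  set s : ℕ → ℕ := fun i => (C.filter (fun v => own v = i)).card with hs
  have hxs : ∀ i, (fib U S own i).card = x i + s i := by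
    intro i
    have e : C.filter (fun v => own v = i) = fib U S own i ∩ C := by
      ext w
      simp only [fib, mem_filter, mem_inter]
      constructor
      · rintro ⟨h1, h2⟩; exact ⟨⟨hC h1, h2⟩, h1⟩
      · rintro ⟨⟨-, h2⟩, h1⟩; exact ⟨h1, h2⟩
    simp only [hx, hs, e]
    exact (card_sdiff_add_card_inter _ _).symm
  have hsum : ∑ i ∈ range j, s i = C.card := by
    simp only [hs]
    exact (card_eq_sum_card_fiberwise (fun v _ => by simpa using hown v)).symm
  set a : ℕ → ℝ := fun i => pot B χ i (b i) (x i) with ha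
  set a' : ℕ → ℝ := fun i => pot B χ i (b i + 1) (x i) with ha'
  have hapos : ∀ i ∈ range j, 0 < a i := by
    intro i hi
    apply h.pot_pos
    intro h0
    have := hb i h0 (mem_range.1 hi); rw [hxs] at this; omega
  set ρ : ℕ → ℝ := fun i => a' i / a i with hρ
  have hρ01 : ∀ i ∈ range j, 1 ≤ s i → 0 ≤ ρ i ∧ ρ i ≤ 1 := by
    intro i hi hsi
    have hp := hapos i hi
    have hp' : 0 < a' i := by
      apply h.pot_pos
      intro h0
      have := hb i h0 (mem_range.1 hi); rw [hxs] at this; omega
    refine ⟨by simp only [hρ]; positivity, ?_⟩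
    simp only [hρ]
    rw [div_le_one hp]
    simp only [ha, ha', pot]
    split_ifs with h0
    · exact le_rfl
    · apply h.anti
      have := hb i h0 (mem_range.1 hi); rw [hxs] at this; omega
  have hterm : ∀ v ∈ C, ∏ i ∈ range j,
      pot B χ i (b i + if own v = i then 1 else 0) (x i) = (∏ i ∈ range j, a i) * ρ (own v) := by
    intro v _
    have e : ∀ i ∈ range j, pot B χ i (b i + if own v = i then 1 else 0) (x i)
        = a i * (if own v = i then ρ i else 1) := by
      intro i hi
      have hp := (hapos i hi).ne'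
      split_ifs
      · simp only [hρ]; field_simp; rfl
      · simp [ha]
    rw [prod_congr rfl e, prod_mul_distrib, prod_ite_eq]
    simp [hown v]
  have hρsum : ∑ v ∈ C, ρ (own v) = ∑ i ∈ range j, (s i : ℝ) * ρ i := by
    rw [← sum_fiberwise_of_maps_to (s := C) (t := range j) (g := own)
      (fun v _ => by simpa using hown v)]
    apply sum_congr rfl
    intro i _
    rw [sum_congr rfl (g := fun _ => ρ i) (fun v hv => by rw [(mem_filter.1 hv).2])]
    simp [hs]
  set u : ℕ → ℝ := fun i => (s i : ℝ) / k * (1 - ρ i) with hu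
  have hsk : ∀ i ∈ range j, (s i : ℝ) ≤ k := by
    intro i hi
    have : s i ≤ ∑ i ∈ range j, s i := single_le_sum (fun _ _ => Nat.zero_le _) hi
    exact_mod_cast (by omega : s i ≤ k)
  have hu0 : ∀ i ∈ range j, 0 ≤ u i := by
    intro i hi
    rcases Nat.eq_zero_or_pos (s i) with h0 | h0
    · simp [hu, h0]
    · have := hρ01 i hi h0
      exact mul_nonneg (by positivity) (by linarith)
  have hu1 : ∀ i ∈ range j, u i ≤ 1 := by
    intro i hi
    rcases Nat.eq_zero_or_pos (s i) with h0 | h0
    · simp [hu, h0]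
    · have := hρ01 i hi h0
      have h2 : (s i : ℝ) / k ≤ 1 := (div_le_one hk).2 (hsk i hi)
      have h3 : (0 : ℝ) ≤ (s i : ℝ) / k := by positivity
      simp only [hu]; nlinarith
  have hprod := one_sub_sum_le_prod (range j) u hu0 hu1
  have hsu0 : 0 ≤ ∑ i ∈ range j, u i := sum_nonneg hu0
  obtain ⟨z, hz⟩ := Nat.exists_eq_add_of_le hCk
  have hzk : (k : ℝ) = C.card + z := by exact_mod_cast hz
  have hz1 : 0 ≤ 1 - (z : ℝ) / k := by
    rw [sub_nonneg, div_le_one hk]; have : (0 : ℝ) ≤ C.card := by positivity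
    linarith
  have hlin : ∑ i ∈ range j, (s i : ℝ) * ρ i = k * (1 - (z : ℝ) / k - ∑ i ∈ range j, u i) := by
    have e1 : ∑ i ∈ range j, (s i : ℝ) = C.card := by exact_mod_cast hsum
    have e2 : (k : ℝ) * ∑ i ∈ range j, u i
        = ∑ i ∈ range j, (s i : ℝ) - ∑ i ∈ range j, (s i : ℝ) * ρ i := by
      rw [mul_sum, ← sum_sub_distrib]
      apply sum_congr rfl
      intro i _
      simp only [hu]; field_simp
    have e3 : (k : ℝ) * (1 - (z : ℝ) / k) = C.card := by field_simp; linarith
    rw [mul_sub, e3, e2, e1]; ring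
  have hkey : 1 - (z : ℝ) / k - ∑ i ∈ range j, u i
      ≤ (1 - (z : ℝ) / k) * ∏ i ∈ range j, (1 - u i) := by
    have h3 : (0 : ℝ) ≤ (z : ℝ) / k := by positivity
    nlinarith [mul_le_mul_of_nonneg_left hprod hz1, mul_nonneg h3 hsu0]
  have hown_step : ∀ i ∈ range j,
      B ^ s i * (a i * (1 - u i)) ≤ pot B χ i (b i) (fib U S own i).card := by
    intro i hi
    rw [hxs]
    rcases Nat.eq_zero_or_pos (s i) with h0 | h0
    · simp [hu, h0, ha]
    have hp := (hapos i hi).ne'
    have e : a i * (1 - u i) = (1 - (s i : ℝ) / k) * a i + (s i : ℝ) / k * a' i := by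
      simp only [hu, hρ]; field_simp; ring
    rw [e]
    simp only [ha, ha', pot]
    split_ifs with h1
    · apply le_of_eq; rw [pow_add]; ring
    · apply h.step _ _ _ h0
      have := hb i h1 (mem_range.1 hi); rw [hxs] at this; omega
  have hPa : 0 ≤ ∏ i ∈ range j, a i := prod_nonneg (fun i hi => (hapos i hi).le)
  have hfin : B ^ C.card * ((∏ i ∈ range j, a i) * ∏ i ∈ range j, (1 - u i))
      ≤ ∏ i ∈ range j, pot B χ i (b i) (fib U S own i).card := by
    rw [← hsum, ← prod_pow_eq_pow_sum, ← prod_mul_distrib, ← prod_mul_distrib]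
    apply prod_le_prod _ hown_step
    intro i hi
    exact mul_nonneg (by positivity) (mul_nonneg (hapos i hi).le (by linarith [hu1 i hi]))
  have hPu : 0 ≤ ∏ i ∈ range j, (1 - u i) := prod_nonneg (fun i hi => by linarith [hu1 i hi])
  rw [sum_congr rfl hterm, ← mul_sum, hρsum, hlin, div_mul_eq_mul_div, le_div_iff₀ (by positivity)]
  have hsp := h.short_pow z
  have hBk : B ^ k = B ^ C.card * B ^ z := by rw [hz, pow_add]
  calc (∏ i ∈ range j, a i) * (k * (1 - (z : ℝ) / k - ∑ i ∈ range j, u i)) * B ^ k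
      ≤ (∏ i ∈ range j, a i) * (k * ((1 - (z : ℝ) / k) * ∏ i ∈ range j, (1 - u i))) * B ^ k := by
        gcongr
    _ = k * (B ^ C.card * ((∏ i ∈ range j, a i) * ∏ i ∈ range j, (1 - u i)))
          * (B ^ z * (1 - (z : ℝ) / k)) := by rw [hBk]; ring
    _ ≤ k * (B ^ C.card * ((∏ i ∈ range j, a i) * ∏ i ∈ range j, (1 - u i))) * 1 := by
        apply mul_le_mul_of_nonneg_left hsp; positivity
    _ ≤ k * ∏ i ∈ range j, pot B χ i (b i) (fib U S own i).card := by
        rw [mul_one]; exact mul_le_mul_of_nonneg_left hfin hk.le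

/-- the weighted count below a node of the search tree -/
lemma Good.node {k : ℕ} {B : ℝ} {χ : ℕ → ℕ → ℝ} (h : Good k B χ) {U : Finset α} {r : ℕ}
    {F : Finset (Finset α)} (hF : ∀ T ∈ F, T.card = r)
    (hit : ∀ S ⊆ U, S.card < r → ∃ C ⊆ U \ S, C.card ≤ k ∧ ∀ T ∈ F, S ⊆ T → (T ∩ C).Nonempty) :
    ∀ (d : ℕ) (S : Finset α) (own : α → ℕ) (b : ℕ → ℕ) (j : ℕ), S ⊆ U → S.card + d = r →
      0 < j → (∀ w, own w < j) →
      (∀ i, i ≠ 0 → i < j → b i + (fib U S own i).card + 1 ≤ k) →
      ∑ T ∈ F.filter (fun T => S ⊆ T), ∏ i ∈ range j, wt i (b i + (T ∩ fib U S own i).card)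
        ≤ (k / B ^ k) ^ d * ∏ i ∈ range j, pot B χ i (b i) (fib U S own i).card := by
  have hk : (0 : ℝ) < k := by exact_mod_cast h.k_pos
  have hB : 0 < B := by linarith [h.one_le]
  intro d
  induction d with
  | zero =>
    intro S own b j _ hS _ _ hb
    have hsub : F.filter (fun T => S ⊆ T) ⊆ {S} := by
      intro T hT
      obtain ⟨h1, h2⟩ := mem_filter.1 hT
      rw [mem_singleton]
      exact (eq_of_subset_of_card_le h2 (by rw [hF T h1]; omega)).symm
    rw [pow_zero, one_mul]
    refine (sum_le_sum_of_subset_of_nonneg hsub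
      (fun T _ _ => prod_nonneg (fun i _ => wt_nonneg _ _))).trans ?_
    rw [sum_singleton]
    apply prod_le_prod (fun i _ => wt_nonneg _ _)
    intro i hi
    refine (wt_anti i (Nat.le_add_right _ _)).trans ?_
    unfold wt pot
    split_ifs with h0
    · exact one_le_pow₀ h.one_le
    · exact h.low _ _ (hb i h0 (mem_range.1 hi))
  | succ d ih =>
    intro S own b j hSU hS hj hown hb
    obtain ⟨C, hC, hCk, hCT⟩ := hit S hSU (by omega)
    set own' : α → ℕ := fun w => if w ∈ C then j else own w with hown'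
    set b' : α → ℕ → ℕ := fun v i => if i = j then 0 else b i + if own v = i then 1 else 0
      with hb'
    have hb'old : ∀ v i, i < j → b' v i = b i + if own v = i then 1 else 0 := by
      intro v i hi
      simp only [hb', hi.ne, if_false]
    have hb'new : ∀ v, b' v j = 0 := by intro v; simp only [hb', if_true]
    have hbi : ∀ v ∈ C, ∀ i, i ≠ 0 → i < j →
        (b i + if own v = i then 1 else 0) + (fib U S own i \ C).card + 1 ≤ k := by
      intro v hv i h0 hi
      have h1 := hb i h0 hi
      have h2 := card_sdiff_add_card_inter (fib U S own i) C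
      split_ifs with h3
      · have : 0 < (fib U S own i ∩ C).card :=
          card_pos.2 ⟨v, mem_inter.2 ⟨mem_filter.2 ⟨hC hv, h3⟩, hv⟩⟩
        omega
      · omega
    have hchild : ∀ v ∈ C,
        ∑ T ∈ F.filter (fun T => insert v S ⊆ T),
          ∏ i ∈ range (j + 1), wt i (b' v i + (T ∩ fib U (insert v S) own' i).card)
        ≤ (k / B ^ k) ^ d * ∏ i ∈ range j,
          pot B χ i (b i + if own v = i then 1 else 0) (fib U S own i \ C).card := by
      intro v hv
      have hvUS := mem_sdiff.1 (hC hv)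
      have hCe : (C.erase v).card + 1 = C.card := card_erase_add_one hv
      have h1 := ih (insert v S) own' (b' v) (j + 1) (insert_subset hvUS.1 hSU)
        (by rw [card_insert_of_notMem hvUS.2]; omega) (by omega)
        (by
          intro w
          simp only [hown']
          split_ifs
          · omega
          · have := hown w; omega)
        (by
          intro i h0 hi
          rcases Nat.lt_succ_iff_lt_or_eq.1 hi with hi | rfl
          · rw [hb'old v i hi, fib_step_old hv hi]; exact hbi v hv i h0 hi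
          · rw [hb'new, fib_step_new hC hown]; omega)
      refine h1.trans ?_
      apply mul_le_mul_of_nonneg_left _ (by positivity)
      rw [prod_range_succ, hb'new, fib_step_new hC hown]
      have e : ∏ i ∈ range j, pot B χ i (b' v i) (fib U (insert v S) own' i).card
          = ∏ i ∈ range j,
            pot B χ i (b i + if own v = i then 1 else 0) (fib U S own i \ C).card := by
        apply prod_congr rfl
        intro i hi
        rw [hb'old v i (mem_range.1 hi), fib_step_old hv (mem_range.1 hi)]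
      rw [e]
      apply mul_le_of_le_one_right
      · exact prod_nonneg (fun i hi =>
          (h.pot_pos (fun h0 => hbi v hv i h0 (mem_range.1 hi))).le)
      · unfold pot
        rw [if_neg hj.ne']
        exact h.fresh _ (by omega)
    have hT : ∀ T ∈ F.filter (fun T => S ⊆ T),
        ∏ i ∈ range j, wt i (b i + (T ∩ fib U S own i).card)
        ≤ ∑ v ∈ C, if insert v S ⊆ T then
          ∏ i ∈ range (j + 1), wt i (b' v i + (T ∩ fib U (insert v S) own' i).card) else 0 := by
      intro T hT
      obtain ⟨hTF, hST⟩ := mem_filter.1 hT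
      have hne := hCT T hTF hST
      have hpos : (0 : ℝ) < (T ∩ C).card := by exact_mod_cast card_pos.2 hne
      set W := ∏ i ∈ range j, wt i (b i + (T ∩ fib U S own i).card) with hW
      have hW0 : 0 ≤ W := prod_nonneg (fun i _ => wt_nonneg _ _)
      rw [← sum_filter]
      have efil : C.filter (fun v => insert v S ⊆ T) = T ∩ C := by
        ext w
        simp only [mem_filter, mem_inter, insert_subset_iff]
        tauto
      rw [efil]
      have hv : ∀ v ∈ T ∩ C, W / (T ∩ C).card ≤
          ∏ i ∈ range (j + 1), wt i (b' v i + (T ∩ fib U (insert v S) own' i).card) := by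
        intro v hv
        obtain ⟨hvT, hvC⟩ := mem_inter.1 hv
        rw [prod_range_succ, hb'new, fib_step_new hC hown]
        have e1 : wt j (0 + (T ∩ C.erase v).card) = 1 / (T ∩ C).card := by
          unfold wt
          rw [if_neg hj.ne', zero_add, inter_erase]
          have := card_erase_add_one hv
          rw [← this]; push_cast; rfl
        rw [e1, div_eq_mul_one_div]
        apply mul_le_mul_of_nonneg_right _ (by positivity)
        apply prod_le_prod (fun i _ => wt_nonneg _ _)
        intro i hi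
        apply wt_anti
        rw [hb'old v i (mem_range.1 hi), fib_step_old hvC (mem_range.1 hi)]
        split_ifs with h3
        · have hlt : (T ∩ (fib U S own i \ C)).card < (T ∩ fib U S own i).card := by
            apply card_lt_card
            refine ⟨inter_subset_inter_left sdiff_subset, fun hh => ?_⟩
            have := hh (mem_inter.2 ⟨hvT, mem_filter.2 ⟨hC hvC, h3⟩⟩)
            exact (mem_sdiff.1 (mem_inter.1 this).2).2 hvC
          omega
        · have hle : (T ∩ (fib U S own i \ C)).card ≤ (T ∩ fib U S own i).card :=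
            card_le_card (inter_subset_inter_left sdiff_subset)
          omega
      refine le_trans (le_of_eq ?_) (sum_le_sum hv)
      rw [sum_const, nsmul_eq_mul]; field_simp
    refine (sum_le_sum hT).trans ?_
    rw [sum_comm]
    have hsw : ∀ v ∈ C, (∑ T ∈ F.filter (fun T => S ⊆ T), if insert v S ⊆ T then
          ∏ i ∈ range (j + 1), wt i (b' v i + (T ∩ fib U (insert v S) own' i).card) else 0)
        ≤ (k / B ^ k) ^ d * ∏ i ∈ range j,
          pot B χ i (b i + if own v = i then 1 else 0) (fib U S own i \ C).card := by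
      intro v hv
      rw [← sum_filter, filter_filter]
      refine le_trans (le_of_eq ?_) (hchild v hv)
      apply sum_congr _ (fun _ _ => rfl)
      apply filter_congr
      intro T _
      exact ⟨fun hh => hh.2, fun hh => ⟨(subset_insert _ _).trans hh, hh⟩⟩
    refine (sum_le_sum hsw).trans ?_
    rw [← mul_sum, pow_succ, mul_assoc]
    exact mul_le_mul_of_nonneg_left (h.step_sum hC hCk hown hb) (by positivity)

/-- the counting bound for `k`-hit families -/
theorem Good.card_le {k : ℕ} {B : ℝ} {χ : ℕ → ℕ → ℝ} (h : Good k B χ) {U : Finset α} {r : ℕ}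
    {F : Finset (Finset α)} (hF : ∀ T ∈ F, T.card = r)
    (hit : ∀ S ⊆ U, S.card < r → ∃ C ⊆ U \ S, C.card ≤ k ∧ ∀ T ∈ F, S ⊆ T → (T ∩ C).Nonempty) :
    (F.card : ℝ) ≤ (k / B ^ k) ^ r * B ^ U.card := by
  have := h.node hF hit r ∅ (fun _ => 0) (fun _ => 0) 1 (empty_subset _) (by simp) one_pos
    (fun _ => one_pos) (fun i h0 hi => by omega)
  simpa [wt, pot, fib] using this

end Pool.Agent.P.MP_a54059_lc
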