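import Mathlib

/-! Exact thresholds from gap tests and residues of block weights. -/

namespace Pool.Agent.P.MP_a54059_lc.Mono

open Finset

variable {α Γ : Type*} [DecidableEq α] (K : Γ → Prop) (rej : Γ → Finset α → Prop)

open Classical in
/-- tests of class `K` separate levels at distance `G` -/
def Gap (P : Finset α) (M m G : ℕ) : Prop :=
  ∀ (u : ℕ) (𝒯 : Finset (Finset α × Fin M)) (Y : Finset α × Fin M → Finset α),
    (∀ t ∈ 𝒯, Y t ⊆ P ∧ u ≤ #(Y t)) → ∃ F, K F ∧ (∀ X ⊆ P, #X + G ≤ u → rej F X) ∧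
      4 * m ^ 2 * #{t ∈ 𝒯 | rej F (Y t)} ≤ #𝒯

/-- one gap test for every level -/
def Sys (P : Finset α) (G : ℕ) (𝓕 : ℕ → Γ) : Prop :=
  ∀ u, K (𝓕 u) ∧ ∀ X ⊆ P, #X + G ≤ u → rej (𝓕 u) X

/-- the system accepts `y` with any one block removed -/
def Good {M : ℕ} (B : Fin M → Finset α) (𝓕 : ℕ → Γ) (y : Finset α) : Prop :=
  ∀ i u, u ≤ #(y \ B i) → ¬ rej (𝓕 u) (y \ B i)

/-- the middle gate attached to a threshold, a residue vector and a system -/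
def Mid (P : Finset α) {M : ℕ} (B : Fin M → Finset α) (q : ℕ) (x : ℕ × (Fin M → ℕ) × (ℕ → Γ))
    (X : Finset α) : Prop :=
  ∀ i, ∀ a ≤ #(B i), #(X ∩ B i) ≤ a →
    ¬ rej (x.2.2 (x.1 + (a + (q - x.2.1 i)) % q - a)) ((X ∩ P) \ B i)

variable {K rej}

open Classical in
lemma half {P : Finset α} {M m G : ℕ} (hM : M ≤ m) (hm : 1 ≤ m) (hP : #P ≤ m)
    (hgap : Gap K rej P M m G) (B : Fin M → Finset α) (𝒴 : Finset (Finset α))
    (h𝒴 : ∀ y ∈ 𝒴, y ⊆ P) :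
    ∃ 𝓕, Sys K rej P G 𝓕 ∧ 2 * #{y ∈ 𝒴 | ¬ Good rej B 𝓕 y} ≤ #𝒴 := by
  have key := fun u => hgap u
    ({t ∈ 𝒴 ×ˢ (univ : Finset (Fin M)) | u ≤ #(t.1 \ B t.2)}) (fun t => t.1 \ B t.2)
    (fun t ht => ⟨sdiff_subset.trans (h𝒴 _ (mem_product.1 (mem_filter.1 ht).1).1),
      (mem_filter.1 ht).2⟩)
  choose 𝓕 h1 h3 h4 using key
  refine ⟨𝓕, fun u => ⟨h1 u, h3 u⟩, ?_⟩
  have hsub : {y ∈ 𝒴 | ¬ Good rej B 𝓕 y} ⊆ (range (m + 1)).biUnion fun u =>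
      ({t ∈ ({t ∈ 𝒴 ×ˢ (univ : Finset (Fin M)) | u ≤ #(t.1 \ B t.2)} :
        Finset (Finset α × Fin M)) | rej (𝓕 u) (t.1 \ B t.2)}).image Prod.fst := by
    intro y hy
    obtain ⟨hy1, hy2⟩ := mem_filter.1 hy
    simp only [Good, not_forall, not_not] at hy2
    obtain ⟨i, u, hu, hd⟩ := hy2
    have : #(y \ B i) ≤ m := (card_le_card (sdiff_subset.trans (h𝒴 y hy1))).trans hP
    refine mem_biUnion.2 ⟨u, mem_range.2 (by omega), mem_image.2 ⟨(y, i), ?_, rfl⟩⟩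
    exact mem_filter.2 ⟨mem_filter.2 ⟨mem_product.2 ⟨hy1, mem_univ _⟩, hu⟩, hd⟩
  have h5 := (card_le_card hsub).trans card_biUnion_le
  have h6 : 4 * m ^ 2 * #{y ∈ 𝒴 | ¬ Good rej B 𝓕 y} ≤ (m + 1) * (#𝒴 * M) := by
    refine (Nat.mul_le_mul_left _ h5).trans ?_
    rw [mul_sum]
    refine (sum_le_card_nsmul _ _ (#𝒴 * M) fun u _ => ?_).trans (by simp)
    refine ((Nat.mul_le_mul_left _ card_image_le).trans (h4 u)).trans ?_
    exact (card_filter_le _ _).trans (by simp)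
  have h7 : (m + 1) * (#𝒴 * M) ≤ (2 * m) * (#𝒴 * m) := by
    gcongr
    omega
  have h8 : 2 * m ^ 2 * (2 * #{y ∈ 𝒴 | ¬ Good rej B 𝓕 y}) ≤ 2 * m ^ 2 * #𝒴 := by
    linarith
  exact Nat.le_of_mul_le_mul_left h8 (by positivity)

lemma systems {P : Finset α} {M m G : ℕ} (hM : M ≤ m) (hm : 1 ≤ m) (hP : #P ≤ m)
    (hgap : Gap K rej P M m G) (B : Fin M → Finset α) (L : ℕ) :
    ∀ 𝒴 : Finset (Finset α), (∀ y ∈ 𝒴, y ⊆ P) → #𝒴 < 2 ^ L →
      ∃ 𝒮 : Finset (ℕ → Γ), #𝒮 ≤ L ∧ (∀ 𝓕 ∈ 𝒮, Sys K rej P G 𝓕) ∧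
        ∀ y ∈ 𝒴, ∃ 𝓕 ∈ 𝒮, Good rej B 𝓕 y := by
  classical
  induction L with
  | zero =>
    intro 𝒴 _ h
    have : 𝒴 = ∅ := card_eq_zero.1 (by omega)
    exact ⟨∅, le_rfl, by simp, by simp [this]⟩
  | succ L ih =>
    intro 𝒴 h𝒴 h
    obtain ⟨𝓕, h1, h2⟩ := half hM hm hP hgap B 𝒴 h𝒴
    obtain ⟨𝒮, h3, h4, h5⟩ := ih {y ∈ 𝒴 | ¬ Good rej B 𝓕 y}
      (fun y hy => h𝒴 y (mem_filter.1 hy).1) (by rw [pow_succ] at h; omega)
    refine ⟨insert 𝓕 𝒮, (card_insert_le _ _).trans (by omega), ?_, fun y hy => ?_⟩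
    · intro 𝓖 h𝓖
      rcases mem_insert.1 h𝓖 with rfl | h6
      · exact h1
      · exact h4 _ h6
    · by_cases hgood : Good rej B 𝓕 y
      · exact ⟨𝓕, mem_insert_self _ _, hgood⟩
      · obtain ⟨𝓖, h6, h7⟩ := h5 y (mem_filter.2 ⟨hy, hgood⟩)
        exact ⟨𝓖, mem_insert_of_mem h6, h7⟩

lemma mid_complete {P : Finset α} {M : ℕ} {B : Fin M → Finset α} (hBP : ∀ i, B i ⊆ P) {q : ℕ}
    (hq : 0 < q) {𝓕 : ℕ → Γ} (Y : Finset α) (h : Good rej B 𝓕 (Y ∩ P)) :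
    Mid rej P B q (#(Y ∩ P), fun i => #(Y ∩ B i) % q, 𝓕) Y := by
  intro i a _ ha
  obtain ⟨e, he⟩ := Nat.exists_eq_add_of_le ha
  have h2 : (a + (q - #(Y ∩ B i) % q)) % q ≤ e := by
    have h3 := Nat.div_add_mod #(Y ∩ B i) q
    have h4 := Nat.mod_lt #(Y ∩ B i) hq
    have h5 : a + (q - #(Y ∩ B i) % q) = e + q * (#(Y ∩ B i) / q + 1) := by
      rw [mul_add]; omega
    rw [h5, Nat.add_mul_mod_self_left]
    exact Nat.mod_le _ _
  have h3 : #((Y ∩ P) \ B i) + #(Y ∩ B i) = #(Y ∩ P) := by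
    rw [← card_sdiff_add_card_inter (Y ∩ P) (B i), inter_assoc, inter_eq_right.2 (hBP i)]
  exact h i _ (by dsimp only; omega)

lemma slack {M G τ W : ℕ} (hM : 1 ≤ M) (x r : Fin M → ℕ) (hx : ∑ i, x i = W)
    (hr : ∀ i, r i < M * G) (hτ : ∑ i, r i ≡ τ [MOD M * G]) (hW : W < τ) :
    ∃ i, W + G ≤ τ + (x i + (M * G - r i)) % (M * G) := by
  obtain ⟨q, hq⟩ : ∃ q, q = M * G := ⟨_, rfl⟩
  rw [← hq] at hr hτ ⊢
  obtain ⟨d, hd⟩ := Nat.exists_eq_add_of_lt hW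
  by_contra hno
  push Not at hno
  have h1 : ∑ i, ((x i + (q - r i)) % q + (d + 1) + 1) ≤ q := by
    refine (sum_le_card_nsmul _ _ G fun i _ => ?_).trans (by simp [hq])
    have := hno i
    omega
  have h2 : ∑ i, (x i + (q - r i)) % q + M * (d + 2) ≤ q := by
    simp only [add_assoc] at h1
    rw [sum_add_distrib] at h1
    simpa using h1
  have h3 : d + 2 ≤ M * (d + 2) := Nat.le_mul_of_pos_left _ hM
  have h4 : ∑ i, (x i + (q - r i)) % q + ∑ i, r i ≡ W [MOD q] := by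
    rw [← sum_add_distrib, ← hx]
    refine Nat.ModEq.sum fun i _ => ?_
    have h5 : (x i + (q - r i)) % q + r i ≡ x i + (q - r i) + r i [MOD q] :=
      (Nat.mod_modEq _ _).add_right _
    have h6 : x i + (q - r i) + r i = x i + q := by have := hr i; omega
    rw [h6] at h5
    exact h5.trans (by simp [Nat.ModEq])
  have h5 : W + (∑ i, (x i + (q - r i)) % q + (d + 1)) ≡ W + 0 [MOD q] := by
    have h6 := (hτ.symm.add_left (∑ i, (x i + (q - r i)) % q)).trans h4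
    rw [hd] at h6
    rw [add_zero]
    convert h6 using 1
    ring
  have h6 := Nat.le_of_dvd (by omega) (Nat.modEq_zero_iff_dvd.1 (Nat.ModEq.add_left_cancel' _ h5))
  omega

lemma mid_sound {P : Finset α} {M G : ℕ} (hM : 1 ≤ M) {B : Fin M → Finset α}
    (hBP : ∀ i, B i ⊆ P) (hsum : ∀ X : Finset α, ∑ i, #(X ∩ B i) = #(X ∩ P)) {τ : ℕ}
    {r : Fin M → ℕ} (hr : ∀ i, r i < M * G) (hτ : ∑ i, r i ≡ τ [MOD M * G])
    {𝓕 : ℕ → Γ} (h : Sys K rej P G 𝓕) (X : Finset α)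
    (hX : Mid rej P B (M * G) (τ, r, 𝓕) X) : τ ≤ #(X ∩ P) := by
  by_contra hcon
  push Not at hcon
  obtain ⟨i, hi⟩ := slack hM (fun i => #(X ∩ B i)) r (hsum X) hr hτ hcon
  have h3 : #((X ∩ P) \ B i) + #(X ∩ B i) = #(X ∩ P) := by
    rw [← card_sdiff_add_card_inter (X ∩ P) (B i), inter_assoc, inter_eq_right.2 (hBP i)]
  exact hX i _ (card_le_card inter_subset_right) le_rfl ((h _).2 _
    (sdiff_subset.trans inter_subset_right) (by dsimp only; omega))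

/-- all thresholds of one superblock -/
lemma superblock {P : Finset α} {M m G : ℕ} (hM : 1 ≤ M) (hMm : M ≤ m) (hG : 1 ≤ G)
    (hP : #P ≤ m) (hgap : Gap K rej P M m G) (B : Fin M → Finset α)
    (hBP : ∀ i, B i ⊆ P) (hsum : ∀ X : Finset α, ∑ i, #(X ∩ B i) = #(X ∩ P)) :
    ∃ D : Finset (ℕ × (Fin M → ℕ) × (ℕ → Γ)), #D ≤ (m + 1) ^ 2 * (M * G) ^ M ∧
      (∀ x ∈ D, (∀ u, K (x.2.2 u)) ∧ ∀ X, Mid rej P B (M * G) x X → x.1 ≤ #(X ∩ P)) ∧
      ∀ Y : Finset α, ∃ x ∈ D, x.1 = #(Y ∩ P) ∧ Mid rej P B (M * G) x Y := by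
  obtain ⟨𝒮, h1, h2, h3⟩ := systems hMm (hM.trans hMm) hP hgap B (m + 1) P.powerset
    (fun y hy => mem_powerset.1 hy) (by
      rw [card_powerset]
      exact Nat.pow_lt_pow_right (by norm_num) (by omega))
  have hq : 0 < M * G := Nat.mul_pos hM hG
  refine ⟨{x ∈ range (m + 1) ×ˢ (Fintype.piFinset fun _ : Fin M => range (M * G)) ×ˢ 𝒮 |
    ∑ i, x.2.1 i ≡ x.1 [MOD M * G]}, ?_, ?_, fun Y => ?_⟩
  · refine (card_filter_le _ _).trans ?_
    rw [card_product, card_product, Fintype.card_piFinset, card_range, prod_const, card_range,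
      card_univ, Fintype.card_fin, pow_two, mul_assoc, mul_comm (m + 1) ((M * G) ^ M)]
    gcongr
  · rintro ⟨τ, r, 𝓕⟩ hx
    obtain ⟨hx1, hx2⟩ := mem_filter.1 hx
    obtain ⟨hx3, hx4⟩ := mem_product.1 (mem_product.1 hx1).2
    exact ⟨fun u => (h2 _ hx4 u).1, fun X hX => mid_sound hM hBP hsum
      (fun i => mem_range.1 (Fintype.mem_piFinset.1 hx3 i)) hx2 (h2 _ hx4) X hX⟩
  · obtain ⟨𝓕, h4, h5⟩ := h3 (Y ∩ P) (mem_powerset.2 inter_subset_right)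
    refine ⟨_, ?_, rfl, mid_complete hBP hq Y h5⟩
    refine mem_filter.2 ⟨mem_product.2 ⟨mem_range.2 ?_, mem_product.2
      ⟨Fintype.mem_piFinset.2 fun i => mem_range.2 (Nat.mod_lt _ hq), h4⟩⟩, ?_⟩
    · have := (card_le_card (inter_subset_right : Y ∩ P ⊆ P)).trans hP
      show #(Y ∩ P) < m + 1
      omega
    · show ∑ i, #(Y ∩ B i) % (M * G) ≡ #(Y ∩ P) [MOD M * G]
      rw [← hsum Y]
      exact Nat.ModEq.sum fun i _ => Nat.mod_modEq _ _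

/-- a set is cut into superblocks of `M` blocks of size at most `b` -/
lemma cut (Q : Finset α) {M b : ℕ} (hM : 0 < M) (hb : 0 < b) :
    ∃ (P : Fin (#Q / (M * b) + 1) → Finset α) (B : Fin (#Q / (M * b) + 1) → Fin M → Finset α),
      (∀ j i, #(B j i) ≤ b) ∧ (∀ j i, B j i ⊆ P j) ∧
      (∀ j X, ∑ i, #(X ∩ B j i) = #(X ∩ P j)) ∧ ∀ X, ∑ j, #(X ∩ P j) = #(X ∩ Q) := by
  obtain ⟨ix, h1, h2⟩ : ∃ ix : α → ℕ, (∀ v, ix v ≤ #Q) ∧ Set.InjOn ix Q := by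
    refine ⟨fun v => if h : v ∈ Q then Q.equivFin ⟨v, h⟩ else 0, fun v => ?_, fun v hv w hw h => ?_⟩
    · dsimp only
      split_ifs
      · exact (Fin.is_lt _).le
      · exact Nat.zero_le _
    · simp only [mem_coe.1 hv, mem_coe.1 hw, dif_pos] at h
      exact congrArg Subtype.val (Q.equivFin.injective (Fin.ext h))
  let s : α → Fin (#Q / (M * b) + 1) := fun v =>
    ⟨ix v / (M * b), Nat.lt_succ_of_le (Nat.div_le_div_right (h1 v))⟩
  let bl : α → Fin M := fun v => ⟨ix v / b % M, Nat.mod_lt _ hM⟩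
  refine ⟨fun j => {v ∈ Q | s v = j}, fun j i => {v ∈ Q | s v = j ∧ bl v = i}, fun j i => ?_,
    fun j i v hv => mem_filter.2 ⟨(mem_filter.1 hv).1, (mem_filter.1 hv).2.1⟩, fun j X => ?_,
    fun X => ?_⟩
  · refine (card_le_card_of_injOn (t := range b) (fun v => ix v % b)
      (fun v _ => mem_coe.2 (mem_range.2 (Nat.mod_lt _ hb))) ?_).trans (card_range b).le
    intro v hv w hw hvw
    obtain ⟨hv1, hv2, hv3⟩ := mem_filter.1 (mem_coe.1 hv)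
    obtain ⟨hw1, hw2, hw3⟩ := mem_filter.1 (mem_coe.1 hw)
    have h5 : ix v / (M * b) = ix w / (M * b) := congrArg Fin.val (hv2.trans hw2.symm)
    have h6 : ix v / b % M = ix w / b % M := congrArg Fin.val (hv3.trans hw3.symm)
    rw [mul_comm, ← Nat.div_div_eq_div_mul, ← Nat.div_div_eq_div_mul] at h5
    have h7 : ix v / b = ix w / b := by
      rw [← Nat.div_add_mod (ix v / b) M, ← Nat.div_add_mod (ix w / b) M, h5, h6]
    have h8 : ix v % b = ix w % b := hvw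
    exact h2 hv1 hw1 (by rw [← Nat.div_add_mod (ix v) b, ← Nat.div_add_mod (ix w) b, h7, h8])
  · refine Eq.trans (sum_congr rfl fun i _ => congrArg card ?_) (card_eq_sum_card_fiberwise
      (f := bl) (t := univ) (fun _ _ => mem_coe.2 (mem_univ _))).symm
    ext v
    simp [and_assoc]
  · refine Eq.trans (sum_congr rfl fun i _ => congrArg card ?_) (card_eq_sum_card_fiberwise
      (f := s) (t := univ) (fun _ _ => mem_coe.2 (mem_univ _))).symm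
    ext v
    simp [and_assoc]

/-- a threshold is an OR of ANDs of middle gates -/
theorem grid (Q : Finset α) {M b G : ℕ} (hM : 1 ≤ M) (hb : 1 ≤ b) (hG : 1 ≤ G)
    (hgap : ∀ P : Finset α, #P ≤ M * b → Gap K rej P M (M * b) G) (t : ℕ) :
    ∃ (P : Fin (#Q / (M * b) + 1) → Finset α) (B : Fin (#Q / (M * b) + 1) → Fin M → Finset α)
      (𝒟 : Finset (Fin (#Q / (M * b) + 1) → ℕ × (Fin M → ℕ) × (ℕ → Γ))),
      (∀ j i, #(B j i) ≤ b) ∧ #𝒟 ≤ ((M * b + 1) ^ 2 * (M * G) ^ M) ^ (#Q / (M * b) + 1) ∧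
      (∀ f ∈ 𝒟, ∀ j u, K ((f j).2.2 u)) ∧
      ∀ X, (∃ f ∈ 𝒟, ∀ j, Mid rej (P j) (B j) (M * G) (f j) X) ↔ t ≤ #(X ∩ Q) := by
  obtain ⟨P, B, hB, hBP, hsum, hX⟩ := cut Q hM hb
  have hP : ∀ j, #(P j) ≤ M * b := by
    intro j
    have h1 := hsum j (P j)
    rw [inter_self] at h1
    rw [← h1]
    refine (sum_le_card_nsmul _ _ b fun i _ => ?_).trans (by simp)
    exact (card_le_card inter_subset_right).trans (hB j i)
  choose D h1 h2 h3 using fun j => superblock hM (Nat.le_mul_of_pos_right _ hb) hG (hP j)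
    (hgap _ (hP j)) (B j) (hBP j) (hsum j)
  refine ⟨P, B, {f ∈ Fintype.piFinset D | t ≤ ∑ j, (f j).1}, hB, ?_, ?_,
    fun X => ⟨?_, fun ht => ?_⟩⟩
  · refine (card_filter_le _ _).trans ?_
    rw [Fintype.card_piFinset]
    exact (prod_le_pow_card _ _ _ fun j _ => h1 j).trans (by simp)
  · intro f hf j
    exact (h2 j _ (Fintype.mem_piFinset.1 (mem_filter.1 hf).1 j)).1
  · rintro ⟨f, hf, hacc⟩
    rw [← hX X]
    exact (mem_filter.1 hf).2.trans (sum_le_sum fun j _ =>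
      (h2 j _ (Fintype.mem_piFinset.1 (mem_filter.1 hf).1 j)).2 X (hacc j))
  · choose f hf1 hf2 hf3 using fun j => h3 j X
    refine ⟨f, mem_filter.2 ⟨Fintype.mem_piFinset.2 hf1, ?_⟩, hf3⟩
    simp only [hf2, hX X, ht]

end Pool.Agent.P.MP_a54059_lc.Mono
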