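import Mathlib

/-! Greedy choice of tests. -/

namespace Pool.Agent.P.MP_a54059_lc.Mono

open Finset

/-- greedy choice of `R` candidates that cover `𝒳` and touch little of `𝒯` -/
lemma greedy {C X T : Type*} [DecidableEq C] (S : Finset C) (hS : S.Nonempty) (𝒯 : Finset T)
    (a : C → X → Prop) (b : C → T → Prop) [∀ c x, Decidable (a c x)] [∀ c t, Decidable (b c t)]
    {p p' : ℝ} (hp1 : p ≤ 1) (hT : ∀ t ∈ 𝒯, (#{c ∈ S | b c t} : ℝ) ≤ p' * #S) (R : ℕ) :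
    ∀ (A : ℝ) (𝒳 : Finset X), 0 ≤ A → (∀ x ∈ 𝒳, p * #S ≤ (#{c ∈ S | a c x} : ℝ)) →
      ∃ F ⊆ S, #F ≤ R ∧ A * #{x ∈ 𝒳 | ∀ c ∈ F, ¬ a c x} + #{t ∈ 𝒯 | ∃ c ∈ F, b c t} ≤
        A * #𝒳 * (1 - p) ^ R + R * p' * #𝒯 := by
  induction R with
  | zero =>
    intro A 𝒳 _ _
    exact ⟨∅, empty_subset _, le_rfl, by simp⟩
  | succ R ih =>
    intro A 𝒳 hA hX
    have hq : 0 ≤ (1 - p) ^ R := pow_nonneg (by linarith) _
    have h1 : ∑ c ∈ S, (#{x ∈ 𝒳 | ¬ a c x} : ℝ) ≤ #S * (#𝒳 * (1 - p)) := by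
      have h2 : ∑ c ∈ S, (#{x ∈ 𝒳 | ¬ a c x} : ℝ) = ∑ x ∈ 𝒳, (#{c ∈ S | ¬ a c x} : ℝ) := by
        simp only [card_filter]
        push_cast
        exact sum_comm
      rw [h2]
      calc _ ≤ ∑ _x ∈ 𝒳, (#S * (1 - p) : ℝ) := by
            refine sum_le_sum fun x hx => ?_
            have h3 : (#{c ∈ S | a c x} : ℝ) + #{c ∈ S | ¬ a c x} = #S := by
              exact_mod_cast card_filter_add_card_filter_not (s := S) (fun c => a c x)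
            have := hX x hx
            linarith
        _ = _ := by rw [sum_const, nsmul_eq_mul]; ring
    have h2 : ∑ c ∈ S, (#{t ∈ 𝒯 | b c t} : ℝ) ≤ #S * (p' * #𝒯) := by
      have h3 : ∑ c ∈ S, (#{t ∈ 𝒯 | b c t} : ℝ) = ∑ t ∈ 𝒯, (#{c ∈ S | b c t} : ℝ) := by
        simp only [card_filter]
        push_cast
        exact sum_comm
      rw [h3]
      calc _ ≤ ∑ _t ∈ 𝒯, (p' * #S : ℝ) := sum_le_sum hT
        _ = _ := by rw [sum_const, nsmul_eq_mul]; ring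
    obtain ⟨c, hc, hcle⟩ : ∃ c ∈ S, A * (1 - p) ^ R * #{x ∈ 𝒳 | ¬ a c x} + #{t ∈ 𝒯 | b c t} ≤
        A * (1 - p) ^ R * (#𝒳 * (1 - p)) + p' * #𝒯 := by
      refine exists_le_of_sum_le hS ?_
      rw [sum_add_distrib, ← mul_sum, sum_const, nsmul_eq_mul]
      have := mul_le_mul_of_nonneg_left h1 (mul_nonneg hA hq)
      linarith
    obtain ⟨F, hF, hFc, hFle⟩ := ih A {x ∈ 𝒳 | ¬ a c x} hA
      (fun x hx => hX x (mem_filter.1 hx).1)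
    refine ⟨insert c F, insert_subset hc hF, (card_insert_le _ _).trans (by omega), ?_⟩
    have e1 : ({x ∈ 𝒳 | ∀ d ∈ insert c F, ¬ a d x} : Finset X) =
        {x ∈ ({x ∈ 𝒳 | ¬ a c x} : Finset X) | ∀ d ∈ F, ¬ a d x} := by
      ext x
      simp only [mem_filter, forall_mem_insert, and_assoc]
    have e2 : (#{t ∈ 𝒯 | ∃ d ∈ insert c F, b d t} : ℝ) ≤
        #{t ∈ 𝒯 | b c t} + #{t ∈ 𝒯 | ∃ d ∈ F, b d t} := by
      have : ({t ∈ 𝒯 | ∃ d ∈ insert c F, b d t} : Finset T) =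
          {t ∈ 𝒯 | b c t ∨ ∃ d ∈ F, b d t} := by
        ext t
        simp only [mem_filter, mem_insert, exists_eq_or_imp]
      rw [this]
      have h4 : #{t ∈ 𝒯 | b c t ∨ ∃ d ∈ F, b d t} ≤
          #{t ∈ 𝒯 | b c t} + #{t ∈ 𝒯 | ∃ d ∈ F, b d t} := by
        classical
        rw [filter_or]
        exact card_union_le _ _
      exact_mod_cast h4
    rw [e1, pow_succ]
    push_cast
    linarith

lemma two_pow_le_exp (n : ℕ) : (2 : ℝ) ^ n ≤ Real.exp n := by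
  calc (2 : ℝ) ^ n ≤ Real.exp 1 ^ n := by
        gcongr
        linarith [Real.add_one_le_exp (1 : ℝ)]
    _ = _ := by rw [← Real.exp_nat_mul, mul_one]

/-- cover all of `𝒳` and touch a small part of `𝒯` -/
lemma finish {C X T : Type*} [DecidableEq C] (S : Finset C) (hS : S.Nonempty) (𝒳 : Finset X)
    (𝒯 : Finset T) (hne : 𝒯.Nonempty) (a : C → X → Prop) (b : C → T → Prop)
    [∀ c t, Decidable (b c t)] [∀ c x, Decidable (a c x)] {p : ℝ} {m g : ℕ} (hp0 : 0 < p)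
    (hp1 : p ≤ 1) (hm : 1 ≤ m) (hg : 56 * m ^ 3 ≤ 2 ^ g) (h𝒳 : #𝒳 ≤ 2 ^ m)
    (hX : ∀ x ∈ 𝒳, p * #S ≤ (#{c ∈ S | a c x} : ℝ))
    (hT : ∀ t ∈ 𝒯, (#{c ∈ S | b c t} : ℝ) ≤ p * Real.exp (-g) * #S) :
    ∃ F ⊆ S, (#F : ℝ) ≤ 7 * m / p ∧ (∀ x ∈ 𝒳, ∃ c ∈ F, a c x) ∧
      4 * m ^ 2 * #{t ∈ 𝒯 | ∃ c ∈ F, b c t} ≤ #𝒯 := by
  have hm1 : (1 : ℝ) ≤ m := by exact_mod_cast hm
  obtain ⟨F, hF, hFc, hFle⟩ := greedy S hS 𝒯 a b hp1 hT ⌈(3 * m + 3) / p⌉₊ #𝒯 𝒳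
    (by positivity) hX
  set R := ⌈(3 * (m : ℝ) + 3) / p⌉₊ with hR
  have hR1 : (3 * m + 3) / p ≤ R := Nat.le_ceil _
  have hR2 : (R : ℝ) ≤ 7 * m / p := by
    have h1 : (R : ℝ) < (3 * m + 3) / p + 1 := Nat.ceil_lt_add_one (by positivity)
    have h2 : 1 ≤ 1 / p := by rw [le_div_iff₀ hp0]; linarith
    have h3 : (3 * m + 4) / p = (3 * m + 3) / p + 1 / p := by ring
    have h4 : (3 * m + 4) / p ≤ 7 * m / p := by gcongr; linarith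
    linarith
  have e1 : (#𝒳 : ℝ) * (1 - p) ^ R ≤ 1 / (8 * m ^ 2) := by
    have h1 : (#𝒳 : ℝ) ≤ Real.exp m := le_trans (by exact_mod_cast h𝒳) (two_pow_le_exp m)
    have h2 : (1 - p) ^ R ≤ Real.exp (-(3 * m + 3)) := by
      calc _ ≤ Real.exp (-p) ^ R := by
            refine pow_le_pow_left₀ (by linarith) ?_ _
            linarith [Real.add_one_le_exp (-p)]
        _ = Real.exp (R * -p) := by rw [Real.exp_nat_mul]
        _ ≤ _ := by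
            rw [div_le_iff₀ hp0] at hR1
            exact Real.exp_le_exp.2 (by linarith)
    have h3 : 8 * (m : ℝ) ^ 2 ≤ Real.exp (2 * m + 3) := by
      have h4 : (m : ℝ) ≤ Real.exp m := by linarith [Real.add_one_le_exp (m : ℝ)]
      have h5 : (2 : ℝ) ^ 3 ≤ Real.exp 3 := by exact_mod_cast two_pow_le_exp 3
      calc 8 * (m : ℝ) ^ 2 = m ^ 2 * 2 ^ 3 := by ring
        _ ≤ Real.exp m ^ 2 * Real.exp 3 := by gcongr
        _ = _ := by rw [← Real.exp_nat_mul, ← Real.exp_add]; norm_num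
    calc _ ≤ Real.exp m * Real.exp (-(3 * m + 3)) :=
          mul_le_mul h1 h2 (pow_nonneg (by linarith) _) (Real.exp_pos _).le
      _ = 1 / Real.exp (2 * m + 3) := by
          rw [← Real.exp_add, one_div, ← Real.exp_neg]; congr 1; ring
      _ ≤ _ := by gcongr
  have e2 : (R : ℝ) * (p * Real.exp (-g)) ≤ 1 / (8 * m ^ 2) := by
    have h3 : 56 * (m : ℝ) ^ 3 ≤ Real.exp g := le_trans (by exact_mod_cast hg) (two_pow_le_exp g)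
    calc (R : ℝ) * (p * Real.exp (-g)) ≤ 7 * m / p * (p * Real.exp (-g)) := by gcongr
      _ = 7 * m / Real.exp g := by rw [Real.exp_neg]; field_simp
      _ ≤ 7 * m / (56 * m ^ 3) := by gcongr
      _ = _ := by field_simp; norm_num
  have hT0 : (0 : ℝ) < #𝒯 := by exact_mod_cast card_pos.2 hne
  have hm2 : (1 : ℝ) ≤ m ^ 2 := one_le_pow₀ hm1
  have hall : (#𝒯 : ℝ) * #{x ∈ 𝒳 | ∀ c ∈ F, ¬ a c x} + #{t ∈ 𝒯 | ∃ c ∈ F, b c t} ≤
      #𝒯 / (4 * m ^ 2) := by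
    have h1 := mul_le_mul_of_nonneg_left e1 hT0.le
    have h2 := mul_le_mul_of_nonneg_left e2 hT0.le
    have h3 : (#𝒯 : ℝ) / (4 * m ^ 2) = #𝒯 * (1 / (8 * m ^ 2)) + #𝒯 * (1 / (8 * m ^ 2)) := by
      field_simp; norm_num
    linarith
  refine ⟨F, hF, le_trans (by exact_mod_cast hFc) hR2, fun x hx => ?_, ?_⟩
  · by_contra hcon
    have h1 : 1 ≤ #{x ∈ 𝒳 | ∀ c ∈ F, ¬ a c x} :=
      card_pos.2 ⟨x, mem_filter.2 ⟨hx, fun c hc h => hcon ⟨c, hc, h⟩⟩⟩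
    have h2 : (#𝒯 : ℝ) * 1 ≤ #𝒯 * #{x ∈ 𝒳 | ∀ c ∈ F, ¬ a c x} := by
      gcongr
      exact_mod_cast h1
    have h3 : (#𝒯 : ℝ) / (4 * m ^ 2) < #𝒯 := div_lt_self hT0 (by linarith)
    have h4 : (0 : ℝ) ≤ #{t ∈ 𝒯 | ∃ c ∈ F, b c t} := by positivity
    linarith
  · have h2 : (0 : ℝ) ≤ #𝒯 * #{x ∈ 𝒳 | ∀ c ∈ F, ¬ a c x} := by positivity
    have h3 : (#{t ∈ 𝒯 | ∃ c ∈ F, b c t} : ℝ) ≤ #𝒯 / (4 * m ^ 2) := by linarith
    rw [le_div_iff₀ (by positivity), mul_comm] at h3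
    exact_mod_cast h3

end Pool.Agent.P.MP_a54059_lc.Mono
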