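import Pool.Agent.P.MP_a54059_lc.MonoCirc
import Pool.Agent.P.MP_a54059_lc.MonoGap
import Pool.Agent.P.MP_a54059_lc.MonoBlock

/-! Gap formulas of larger depth by repeated amplification. -/

namespace Pool.Agent.P.MP_a54059_lc.Mono

open Finset

variable {α : Type}

def lit : Bool → Prop → Prop
  | true, a => ¬ a
  | false, a => a

open Classical in
/-- a random formula whose rare value is more likely on `𝒜` than on `ℬ` -/
def Amp (s d : ℕ) (top : Bool) (𝒜 ℬ : Finset α → Prop) (p η : ℝ) : Prop :=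
  ∃ (Ω : Type) (_ : Fintype Ω) (_ : Nonempty Ω) (e : Ω → Finset α → Prop),
    (∀ ω, Circ s d top fun X => lit top (e ω X)) ∧
    (∀ X, 𝒜 X → p * Fintype.card Ω ≤ (#{ω | e ω X} : ℝ)) ∧
    ∀ X, ℬ X → (#{ω | e ω X} : ℝ) ≤ p * Real.exp (-η) * Fintype.card Ω

lemma Amp.step {s d : ℕ} {top : Bool} {𝒜 ℬ : Finset α → Prop} {p η lam : ℝ}
    (h : Amp s d top 𝒜 ℬ p η) (hlam : 2 ≤ lam) (hp0 : Real.exp (-(3 * lam + 3)) ≤ p)
    (hp1 : p ≤ 2 / 3) (hη0 : 0 ≤ η) (hη1 : η ≤ 1) (hs : lam * Real.exp (3 * lam + 3) ≤ s) :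
    ∃ p', Real.exp (-(3 * lam + 3)) ≤ p' ∧ p' ≤ 2 / 3 ∧
      Amp s (d + 1) (!top) ℬ 𝒜 p' (η * (lam / 2)) := by
  classical
  obtain ⟨Ω, _, _, e, h1, h2, h3⟩ := h
  have hp : 0 < p := (Real.exp_pos _).trans_le hp0
  obtain ⟨R, hR⟩ : ∃ R, R = ⌈lam / p⌉₊ := ⟨_, rfl⟩
  have hR1 : lam ≤ R * p := by
    rw [← div_le_iff₀ hp, hR]; exact Nat.le_ceil _
  have hR2 : R * p ≤ lam + 1 := by
    have h4 : (R : ℝ) ≤ lam / p + 1 := hR ▸ (Nat.ceil_lt_add_one (by positivity)).le
    have h5 := mul_le_mul_of_nonneg_right h4 hp.le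
    rw [add_mul, div_mul_cancel₀ _ hp.ne'] at h5
    linarith
  have hRs : R ≤ s := by
    rw [hR]
    refine Nat.ceil_le.2 (le_trans ?_ hs)
    rw [div_eq_mul_inv]
    gcongr
    rw [inv_le_comm₀ hp (Real.exp_pos _), ← Real.exp_neg]
    exact hp0
  have hx1 : Real.exp (-η) ≤ 1 - η / 2 := by
    have h4 := Real.add_one_le_exp η
    rw [Real.exp_neg, inv_le_iff_one_le_mul₀ (Real.exp_pos _)]
    have h5 : (1 - η / 2) * (η + 1) ≤ (1 - η / 2) * Real.exp η := by gcongr; linarith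
    nlinarith
  have hx2 : 1 / 3 ≤ Real.exp (-η) := by
    have h4 : Real.exp η ≤ 3 := (Real.exp_le_exp.2 hη1).trans Real.exp_one_lt_three.le
    rw [Real.exp_neg, one_div]
    exact inv_anti₀ (Real.exp_pos _) h4
  set p' := p * Real.exp (-η) with hp'
  have hp'1 : p' ≤ p - p * η / 2 := by
    have := mul_le_mul_of_nonneg_left hx1 hp.le
    linarith
  have hp'2 : p / 3 ≤ p' := by
    have := mul_le_mul_of_nonneg_left hx2 hp.le
    linarith
  have hpη : 0 ≤ p * η / 2 := by positivity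
  have hcount : ∀ X (_ : DecidablePred fun f : Fin R → Ω => ∀ j, ¬ e (f j) X),
      (#{f : Fin R → Ω | ∀ j, ¬ e (f j) X} : ℝ) = (Fintype.card Ω - #{ω | e ω X}) ^ R := by
    intro X _
    have e1 : ({f : Fin R → Ω | ∀ j, ¬ e (f j) X} : Finset (Fin R → Ω)) =
        Fintype.piFinset fun _ => {ω | ¬ e ω X} := by
      ext f; simp
    have e2 : (#{ω | e ω X} : ℝ) + #{ω | ¬ e ω X} = Fintype.card Ω := by
      exact_mod_cast card_filter_add_card_filter_not (s := univ) (fun ω => e ω X)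
    rw [e1, Fintype.card_piFinset, ← e2]
    simp
  have hN : (0 : ℝ) ≤ Fintype.card Ω := by positivity
  refine ⟨(1 - p') ^ R, ?_, ?_, Fin R → Ω, inferInstance, inferInstance,
    fun f X => ∀ j, ¬ e (f j) X, fun f => ?_, fun X hX => ?_, fun X hX => ?_⟩
  · have h4 : Real.exp (-(3 * p)) ≤ 1 - p' := by
      have h5 := Real.add_one_le_exp (3 * p)
      rw [Real.exp_neg, inv_le_iff_one_le_mul₀ (Real.exp_pos _)]
      have h6 : (1 - p) * (3 * p + 1) ≤ (1 - p') * Real.exp (3 * p) := by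
        gcongr <;> linarith
      nlinarith
    calc _ ≤ Real.exp (R * -(3 * p)) := Real.exp_le_exp.2 (by linarith)
      _ = Real.exp (-(3 * p)) ^ R := Real.exp_nat_mul _ _
      _ ≤ _ := pow_le_pow_left₀ (Real.exp_pos _).le h4 _
  · calc (1 - p') ^ R ≤ Real.exp (-p') ^ R :=
          pow_le_pow_left₀ (by linarith) (by linarith [Real.add_one_le_exp (-p')]) _
      _ = Real.exp (R * -p') := (Real.exp_nat_mul _ _).symm
      _ ≤ Real.exp (-(1 / 2)) := by
          refine Real.exp_le_exp.2 ?_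
          have := mul_le_mul_of_nonneg_left hp'2 (Nat.cast_nonneg (α := ℝ) R)
          linarith
      _ ≤ 2 / 3 := by
          rw [Real.exp_neg, inv_le_comm₀ (Real.exp_pos _) (by norm_num)]
          linarith [Real.add_one_le_exp (1 / 2 : ℝ)]
  · cases top
    · exact (Circ.or univ (by simpa using hRs) _ fun j _ => h1 (f j)).congr fun X => by simp [lit]
    · exact (Circ.and univ (by simpa using hRs) _ fun j _ => h1 (f j)).congr fun X => by simp [lit]
  · rw [hcount, Fintype.card_fun, Fintype.card_fin]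
    push_cast
    rw [← mul_pow]
    refine pow_le_pow_left₀ (mul_nonneg (by linarith) hN) ?_ _
    have := h3 X hX
    linarith
  · rw [hcount, Fintype.card_fun, Fintype.card_fin]
    push_cast
    have h4 : 1 - p ≤ (1 - p') * Real.exp (-(p * η / 2)) := by
      have h5 := Real.add_one_le_exp (-(p * η / 2))
      have h6 : (1 - p') * (-(p * η / 2) + 1) ≤ (1 - p') * Real.exp (-(p * η / 2)) := by
        gcongr; linarith
      have h7 : 0 ≤ p' * (p * η / 2) := mul_nonneg (by linarith) hpη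
      linarith
    have h5 : (#{ω | e ω X} : ℝ) ≤ Fintype.card Ω := by exact_mod_cast card_le_univ _
    calc _ ≤ ((1 - p') * Real.exp (-(p * η / 2)) * Fintype.card Ω) ^ R := by
          refine pow_le_pow_left₀ (by linarith) ?_ _
          have := h2 X hX
          have := mul_le_mul_of_nonneg_right h4 hN
          linarith
      _ = (1 - p') ^ R * Real.exp (R * -(p * η / 2)) * Fintype.card Ω ^ R := by
          rw [mul_pow, mul_pow, Real.exp_nat_mul]
      _ ≤ _ := by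
          have h6 : 0 ≤ (1 - p') ^ R := pow_nonneg (by linarith) _
          have h7 := mul_le_mul_of_nonneg_right hR1 hη0
          gcongr
          linarith

variable [DecidableEq α]

lemma Amp.base {P : Finset α} {c G : ℕ} (s : ℕ) (top : Bool) {𝒜 ℬ : Finset α → Prop} {η : ℝ}
    (hP : 0 < #P) (hc : c ≤ #P) (hη : η * (2 * #P) ≤ G)
    [∀ v (X : Finset α), Decidable (lit top (v ∈ X))]
    (hA : ∀ X, 𝒜 X → c ≤ #{v ∈ P | lit top (v ∈ X)})
    (hB : ∀ X, ℬ X → #{v ∈ P | lit top (v ∈ X)} + G ≤ c) :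
    Amp s 0 top 𝒜 ℬ ((#P + c) / (3 * #P)) η := by
  classical
  have hP0 : (0 : ℝ) < #P := by exact_mod_cast hP
  have : Nonempty P := (card_pos.1 hP).to_subtype
  have hcount : ∀ (X : Finset α)
      (_ : DecidablePred fun ω : Fin 3 × P => ω.1 = 0 ∨ (ω.1 = 1 ∧ lit top (ω.2.1 ∈ X))),
      (#{ω : Fin 3 × P | ω.1 = 0 ∨ (ω.1 = 1 ∧ lit top (ω.2.1 ∈ X))} : ℝ) =
        #P + #{v ∈ P | lit top (v ∈ X)} := by
    intro X _
    rw [card_filter, Fintype.sum_prod_type, Fin.sum_univ_three, card_filter,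
      ← sum_coe_sort P fun v => if lit top (v ∈ X) then 1 else 0]
    simp
  have hN : (Fintype.card (Fin 3 × P) : ℝ) = 3 * #P := by simp
  refine ⟨Fin 3 × P, inferInstance, inferInstance,
    fun ω X => ω.1 = 0 ∨ (ω.1 = 1 ∧ lit top (ω.2.1 ∈ X)), ?_, fun X hX => ?_, fun X hX => ?_⟩
  · rintro ⟨a, v⟩
    cases top <;> fin_cases a
    · exact Or.inr (Or.inl fun X => by simp [lit])
    · exact Or.inl ⟨v, fun X => by simp [lit]⟩
    · exact Or.inr (Or.inr fun X => by simp [lit])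
    · exact Or.inr (Or.inr fun X => by simp [lit])
    · exact Or.inl ⟨v, fun X => by simp [lit]⟩
    · exact Or.inr (Or.inl fun X => by simp [lit])
  · rw [hcount, hN, div_mul_cancel₀ _ (by positivity)]
    have : (c : ℝ) ≤ #{v ∈ P | lit top (v ∈ X)} := by exact_mod_cast hA X hX
    linarith
  · rw [hcount, hN, mul_right_comm, div_mul_cancel₀ _ (by positivity)]
    have h1 : (#{v ∈ P | lit top (v ∈ X)} : ℝ) + G ≤ c := by exact_mod_cast hB X hX
    have h2 : (c : ℝ) ≤ #P := by exact_mod_cast hc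
    have h3 := Real.add_one_le_exp (-η)
    have h4 : ((#P : ℝ) + c) * (-η + 1) ≤ (#P + c) * Real.exp (-η) := by gcongr
    rcases le_total η 0 with h5 | h5
    · have : 0 ≤ ((#P : ℝ) + c) * -η := mul_nonneg (by positivity) (by linarith)
      have : (0 : ℝ) ≤ G := by positivity
      linarith
    · have : ((#P : ℝ) + c) * η ≤ (2 * #P) * η := by gcongr; linarith
      linarith

lemma Amp.iter {P : Finset α} {u G s : ℕ} {η lam : ℝ} (hP : 0 < #P) (hu : u ≤ #P) (hG : G ≤ u)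
    (hη0 : 0 ≤ η) (hη : η * (2 * #P) ≤ G) (hlam : 2 ≤ lam)
    (hs : lam * Real.exp (3 * lam + 3) ≤ s) (j : ℕ) (hj : η * (lam / 2) ^ j ≤ lam / 2) :
    (∃ p, Real.exp (-(3 * lam + 3)) ≤ p ∧ p ≤ 2 / 3 ∧ Amp s j true (fun X => X ⊆ P ∧ #X + G ≤ u)
      (fun X => X ⊆ P ∧ u ≤ #X) p (η * (lam / 2) ^ j)) ∧
    ∃ p, Real.exp (-(3 * lam + 3)) ≤ p ∧ p ≤ 2 / 3 ∧ Amp s j false (fun X => X ⊆ P ∧ u ≤ #X)
      (fun X => X ⊆ P ∧ #X + G ≤ u) p (η * (lam / 2) ^ j) := by
  classical
  induction j with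
  | zero =>
    have hP0 : (0 : ℝ) < #P := by exact_mod_cast hP
    have hb : ∀ c : ℕ, c ≤ #P → Real.exp (-(3 * lam + 3)) ≤ ((#P : ℝ) + c) / (3 * #P) ∧
        ((#P : ℝ) + c) / (3 * #P) ≤ 2 / 3 := by
      intro c hc
      have h1 : (c : ℝ) ≤ #P := by exact_mod_cast hc
      have h2 : (0 : ℝ) ≤ c := by positivity
      refine ⟨le_trans (b := 1 / 3) ?_ ?_, ?_⟩
      · rw [Real.exp_neg, one_div]
        exact inv_anti₀ (by norm_num) (by linarith [Real.add_one_le_exp (3 * lam + 3)])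
      · rw [div_le_div_iff₀ (by norm_num) (by positivity)]; linarith
      · rw [div_le_div_iff₀ (by positivity) (by norm_num)]; linarith
    have e1 : ∀ X ⊆ P, #{v ∈ P | lit true (v ∈ X)} + #X = #P := by
      intro X hX
      rw [← card_sdiff_add_card_eq_card hX]
      congr 2
      ext v
      simp [lit]
    have e2 : ∀ X ⊆ P, #{v ∈ P | lit false (v ∈ X)} = #X := by
      intro X hX
      congr 1
      ext v
      simpa [lit] using fun h => hX h
    rw [pow_zero, mul_one]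
    exact ⟨⟨_, (hb (#P - u + G) (by omega)).1, (hb _ (by omega)).2, Amp.base s true hP (by omega) hη
        (fun X hX => by have := e1 X hX.1; omega) fun X hX => by have := e1 X hX.1; omega⟩,
      ⟨_, (hb u hu).1, (hb _ hu).2, Amp.base s false hP hu hη
        (fun X hX => by have := e2 X hX.1; omega) fun X hX => by have := e2 X hX.1; omega⟩⟩
  | succ j ih =>
    rw [pow_succ, ← mul_assoc] at hj ⊢
    have h0 : 0 ≤ η * (lam / 2) ^ j := by positivity
    have h1 : η * (lam / 2) ^ j ≤ 1 :=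
      le_of_mul_le_mul_right (hj.trans_eq (one_mul _).symm) (by linarith)
    obtain ⟨⟨p, a1, a2, a3⟩, ⟨p', b1, b2, b3⟩⟩ := ih (by linarith)
    exact ⟨b3.step hlam b1 b2 h0 h1 hs, a3.step hlam a1 a2 h0 h1 hs⟩

/-- gap formulas of depth `d + 1` with top gate AND -/
lemma gap_deep {d E m g G M : ℕ} (hE : 9 ≤ E) (hm : 1 ≤ m) (hmE : m ≤ 2 ^ E)
    (hg : 56 * m ^ 3 ≤ 2 ^ g) (hgE : g ≤ E) (hG : 2 * m * g ≤ G * E ^ d) (P : Finset α)
    (hP : #P ≤ m) :
    Gap (Circ (2 ^ (14 * E)) (d + 1) false) (fun f X => ¬ f X) P M m G := by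
  classical
  intro u 𝒯 Y hY
  have hE0 : (0 : ℝ) < E := by exact_mod_cast (by omega : 0 < E)
  have hexp : Real.exp (3 * (2 * E) + 3) ≤ 2 ^ (12 * E + 6) := by
    calc Real.exp (3 * (2 * E) + 3) = Real.exp 1 ^ (6 * E + 3) := by
          rw [← Real.exp_nat_mul]; congr 1; push_cast; ring
      _ ≤ (2 ^ 2) ^ (6 * E + 3) := by
          gcongr
          linarith [Real.exp_one_lt_three]
      _ = _ := by rw [← pow_mul]; congr 1; ring
  have hfalse : ∀ d, Circ (α := α) (2 ^ (14 * E)) d true fun _ => False := by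
    rintro (_ | d)
    · exact Or.inr (Or.inr fun _ => not_false)
    · exact ⟨0, Nat.zero_le _, Fin.elim0, fun i => i.elim0, by simp⟩
  rcases 𝒯.eq_empty_or_nonempty with rfl | hT
  · exact ⟨fun _ => False, ⟨1, Nat.one_le_two_pow, fun _ _ => False, fun _ => hfalse d, by simp⟩,
      fun _ _ _ => not_false, by simp⟩
  by_cases hu : u < G
  · exact ⟨fun _ => True, ⟨0, Nat.zero_le _, Fin.elim0, fun i => i.elim0, by simp⟩,
      fun X _ h => by omega, by simp⟩
  have hg1 : 1 ≤ g := by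
    rcases Nat.eq_zero_or_pos g with rfl | h
    · have : 1 ≤ m ^ 3 := Nat.one_le_pow _ _ hm
      omega
    · exact h
  have hG1 : 1 ≤ G := by
    rcases Nat.eq_zero_or_pos G with rfl | h
    · have : 1 ≤ m * g := Nat.mul_pos hm hg1
      rw [mul_assoc] at hG
      omega
    · exact h
  obtain ⟨t0, ht0⟩ := id hT
  have huP : u ≤ #P := (hY t0 ht0).2.trans (card_le_card (hY t0 ht0).1)
  have hη : (g : ℝ) / E ^ d * (2 * E / 2) ^ d = g := by
    rw [mul_div_cancel_left₀ _ (two_ne_zero), div_mul_cancel₀ _ (by positivity)]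
  have h9 : (9 : ℝ) ≤ E := by exact_mod_cast hE
  obtain ⟨p, hp0, hp1, Ω, _, _, e, h1, h2, h3⟩ := (Amp.iter (P := P) (u := u) (G := G)
    (s := 2 ^ (14 * E)) (η := g / E ^ d) (lam := 2 * E) (by omega) huP (by omega) (by positivity)
    (by
      rw [div_mul_eq_mul_div, div_le_iff₀ (by positivity)]
      have : g * (2 * #P) ≤ G * E ^ d := le_trans (by nlinarith) hG
      exact_mod_cast this)
    (by linarith)
    (by
      have h1 : (E : ℝ) ≤ 2 ^ E := by exact_mod_cast Nat.lt_two_pow_self.le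
      push_cast
      calc _ ≤ 2 * 2 ^ E * (2 : ℝ) ^ (12 * E + 6) := by gcongr
        _ = 2 ^ (13 * E + 7) := by rw [← pow_succ', ← pow_add]; congr 1; ring
        _ ≤ _ := pow_le_pow_right₀ (by norm_num) (by omega))
    d (by rw [hη]; have : (g : ℝ) ≤ E := by exact_mod_cast hgE
          linarith)).1
  rw [hη] at h3
  have hp : 0 < p := (Real.exp_pos _).trans_le hp0
  obtain ⟨F, -, hFc, hcov, hkill⟩ := finish (univ : Finset Ω) univ_nonempty
    {X ∈ P.powerset | #X + G ≤ u} 𝒯 hT e (fun ω t => e ω (Y t)) hp (by linarith) hm hg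
    (((card_filter_le _ _).trans (card_powerset P).le).trans (Nat.pow_le_pow_right (by norm_num) hP))
    (fun X hX => h2 X ⟨mem_powerset.1 (mem_filter.1 hX).1, (mem_filter.1 hX).2⟩)
    (fun t ht => h3 _ (hY t ht))
  refine ⟨fun X => ∀ ω ∈ F, ¬ e ω X, Circ.and F ?_ _ fun ω _ => h1 ω, fun X hX hXu h => ?_, ?_⟩
  · have h4 : (m : ℝ) ≤ 2 ^ E := by exact_mod_cast hmE
    have h5 : p⁻¹ ≤ 2 ^ (12 * E + 6) := by
      refine le_trans ?_ hexp
      rw [inv_le_comm₀ hp (Real.exp_pos _), ← Real.exp_neg]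
      exact hp0
    have h6 : (#F : ℝ) ≤ 2 ^ (14 * E) := by
      calc _ ≤ 7 * m * p⁻¹ := hFc
        _ ≤ 2 ^ 3 * 2 ^ E * (2 : ℝ) ^ (12 * E + 6) := by gcongr; norm_num
        _ = 2 ^ (13 * E + 9) := by rw [← pow_add, ← pow_add]; congr 1; ring
        _ ≤ _ := pow_le_pow_right₀ (by norm_num) (by omega)
    exact_mod_cast h6
  · obtain ⟨ω, h4, h5⟩ := hcov X (mem_filter.2 ⟨mem_powerset.2 hX, hXu⟩)
    exact h ω h4 h5
  · convert hkill using 4
    simp

end Pool.Agent.P.MP_a54059_lc.Mono
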