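import Pool.Agent.P.MP_a54059_lc.MonoDefs

/-! Closure properties of monotone formulas. -/

namespace Pool.Agent.P.MP_a54059_lc.Mono

open Finset

variable {α : Type} {s s' d : ℕ} {top : Bool} {f f' : Finset α → Prop}

lemma Circ.congr (h : Circ s d top f) (e : ∀ X, f' X ↔ f X) : Circ s d top f' := by
  obtain rfl : f' = f := funext fun X => propext (e X)
  exact h

lemma Circ.mono (hs : s ≤ s') : ∀ {d : ℕ} {top : Bool} {f : Finset α → Prop},
    Circ s d top f → Circ s' d top f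
  | 0, _, _, h => h
  | _ + 1, true, _, ⟨m, hm, g, h1, h2⟩ => ⟨m, hm.trans hs, g, fun i => (h1 i).mono hs, h2⟩
  | _ + 1, false, _, ⟨m, hm, g, h1, h2⟩ => ⟨m, hm.trans hs, g, fun i => (h1 i).mono hs, h2⟩

lemma Circ.or {ι : Type*} (I : Finset ι) (hI : #I ≤ s) (g : ι → Finset α → Prop)
    (hg : ∀ i ∈ I, Circ s d false (g i)) : Circ s (d + 1) true fun X => ∃ i ∈ I, g i X :=
  ⟨#I, hI, fun j => g (I.equivFin.symm j), fun j => hg _ (I.equivFin.symm j).2, fun _ =>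
    ⟨fun ⟨i, hi, h⟩ => ⟨I.equivFin ⟨i, hi⟩, by simpa using h⟩,
      fun ⟨j, h⟩ => ⟨_, (I.equivFin.symm j).2, h⟩⟩⟩

lemma Circ.and {ι : Type*} (I : Finset ι) (hI : #I ≤ s) (g : ι → Finset α → Prop)
    (hg : ∀ i ∈ I, Circ s d true (g i)) : Circ s (d + 1) false fun X => ∀ i ∈ I, g i X :=
  ⟨#I, hI, fun j => g (I.equivFin.symm j), fun j => hg _ (I.equivFin.symm j).2, fun _ =>
    ⟨fun h j => h _ (I.equivFin.symm j).2,
      fun h i hi => by simpa using h (I.equivFin ⟨i, hi⟩)⟩⟩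

lemma Circ.inter [DecidableEq α] (Q : Finset α) :
    ∀ {d : ℕ} {top : Bool} {f : Finset α → Prop},
      Circ s d top f → Circ s d top fun X => f (X ∩ Q)
  | 0, _, _, Or.inl ⟨v, h⟩ => by
    by_cases hv : v ∈ Q
    · exact Or.inl ⟨v, fun X => by simp [h, hv]⟩
    · exact Or.inr (Or.inr fun X => by simp [h, hv])
  | 0, _, _, Or.inr (Or.inl h) => Or.inr (Or.inl fun _ => h _)
  | 0, _, _, Or.inr (Or.inr h) => Or.inr (Or.inr fun _ => h _)
  | _ + 1, true, _, ⟨m, hm, g, h1, h2⟩ =>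
    ⟨m, hm, fun i X => g i (X ∩ Q), fun i => (h1 i).inter Q, fun _ => h2 _⟩
  | _ + 1, false, _, ⟨m, hm, g, h1, h2⟩ =>
    ⟨m, hm, fun i X => g i (X ∩ Q), fun i => (h1 i).inter Q, fun _ => h2 _⟩

lemma Circ.dual [DecidableEq α] [Fintype α] : ∀ {d : ℕ} {top : Bool} {f : Finset α → Prop},
    Circ s d top f → Circ s d (!top) fun X => ¬ f Xᶜ
  | 0, _, _, Or.inl ⟨v, h⟩ => Or.inl ⟨v, fun X => by simp [h]⟩
  | 0, _, _, Or.inr (Or.inl h) => Or.inr (Or.inr fun _ => not_not.2 (h _))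
  | 0, _, _, Or.inr (Or.inr h) => Or.inr (Or.inl fun _ => h _)
  | _ + 1, true, _, ⟨m, hm, g, h1, h2⟩ =>
    ⟨m, hm, fun i X => ¬ g i Xᶜ, fun i => (h1 i).dual, fun X => by simp [h2]⟩
  | _ + 1, false, _, ⟨m, hm, g, h1, h2⟩ =>
    ⟨m, hm, fun i X => ¬ g i Xᶜ, fun i => (h1 i).dual, fun X => by simp [h2]⟩

/-- an AND of formulas with top gate AND -/
lemma Circ.and_merge {ι : Type*} (I : Finset ι) {a : ℕ} (ha : 1 ≤ a) (hI : #I ≤ a)
    (g : ι → Finset α → Prop) (hg : ∀ i ∈ I, Circ s (d + 1) false (g i)) :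
    Circ (a * s) (d + 1) false fun X => ∀ i ∈ I, g i X := by
  have hg' : ∀ i : I, ∃ m ≤ s, ∃ h : Fin m → Finset α → Prop,
      (∀ j, Circ s d true (h j)) ∧ ∀ X, g i X ↔ ∀ j, h j X := fun i => hg i i.2
  choose m hm h h1 h2 using hg'
  refine (Circ.and (univ : Finset (Σ i : I, Fin (m i))) ?_ (fun x => h x.1 x.2)
    fun x _ => (h1 x.1 x.2).mono (Nat.le_mul_of_pos_left _ ha)).congr fun X => ?_
  · rw [card_univ, Fintype.card_sigma]
    simp only [Fintype.card_fin]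
    refine (sum_le_card_nsmul _ _ s fun i _ => hm i).trans ?_
    rw [card_univ, Fintype.card_coe, smul_eq_mul]
    exact Nat.mul_le_mul_right _ hI
  · exact ⟨fun H x _ => (h2 x.1 X).1 (H x.1 x.1.2) x.2,
      fun H i hi => (h2 ⟨i, hi⟩ X).2 fun j => H ⟨⟨i, hi⟩, j⟩ (mem_univ _)⟩

lemma Circ.or_true (hf : Circ s (d + 1) true f) (hf' : Circ s (d + 1) true f') :
    Circ (2 * s) (d + 1) true fun X => f X ∨ f' X := by
  obtain ⟨m, hm, g, h1, h2⟩ := hf
  obtain ⟨m', hm', g', h1', h2'⟩ := hf'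
  refine (Circ.or (univ : Finset (Fin m ⊕ Fin m')) (by simp; omega) (Sum.elim g g') ?_).congr
    fun X => by simp [h2, h2']
  rintro (i | i) -
  · exact (h1 i).mono (by omega)
  · exact (h1' i).mono (by omega)

/-- an OR of two formulas with top gate AND -/
lemma Circ.or_false (hs : 2 ≤ s) (hf : Circ s (d + 2) false f) (hf' : Circ s (d + 2) false f') :
    Circ (s * s) (d + 2) false fun X => f X ∨ f' X := by
  obtain ⟨m, hm, g, h1, h2⟩ := hf
  obtain ⟨m', hm', g', h1', h2'⟩ := hf'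
  refine (Circ.and (univ : Finset (Fin m × Fin m')) (by simpa using Nat.mul_le_mul hm hm')
    (fun x X => g x.1 X ∨ g' x.2 X) fun x _ =>
      ((h1 x.1).or_true (h1' x.2)).mono (Nat.mul_le_mul_right _ hs)).congr fun X => ?_
  simp only [h2, h2', mem_univ, true_imp_iff, Prod.forall, forall_or_left, forall_or_right]

/-- both shapes of a threshold from one -/
lemma Circ.thr_dual [DecidableEq α] [Fintype α] (Q : Finset α)
    (h : ∀ t, Circ s d true fun X => t ≤ #(X ∩ Q)) (top : Bool) (t : ℕ) :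
    Circ s d top fun X => t ≤ #(X ∩ Q) := by
  cases top
  · have key : ∀ X : Finset α, #(Xᶜ ∩ Q) + #(X ∩ Q) = #Q := fun X => by
      rw [inter_comm Xᶜ, inter_comm X, ← sdiff_eq_inter_compl, card_sdiff_add_card_inter]
    exact (h (#Q + 1 - t)).dual.congr fun X => by have := key X; omega
  · exact h t

lemma Circ.base [DecidableEq α] (Q : Finset α) {E : ℕ} (hQ : #Q ≤ E) (t : ℕ) :
    Circ (2 ^ E) 2 true fun X => t ≤ #(X ∩ Q) := by
  refine (Circ.or (Q.powersetCard t) ?_ (fun T X => ∀ v ∈ T, v ∈ X) fun T hT =>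
    Circ.and (d := 0) T ?_ (fun v X => v ∈ X) fun v _ =>
      Or.inl ⟨v, fun _ => Iff.rfl⟩).congr fun X => ?_
  · exact (card_le_card fun T hT => mem_powerset.2 (mem_powersetCard.1 hT).1).trans
      ((card_powerset Q).le.trans (Nat.pow_le_pow_right (by norm_num) hQ))
  · exact ((card_le_card (mem_powersetCard.1 hT).1).trans hQ).trans Nat.lt_two_pow_self.le
  · constructor
    · intro h
      obtain ⟨T, h1, h2⟩ := exists_subset_card_eq h
      exact ⟨T, mem_powersetCard.2 ⟨h1.trans inter_subset_right, h2⟩,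
        fun v hv => (mem_inter.1 (h1 hv)).1⟩
    · rintro ⟨T, hT, h⟩
      obtain ⟨h1, rfl⟩ := mem_powersetCard.1 hT
      exact card_le_card fun v hv => mem_inter.2 ⟨h v hv, h1 hv⟩

end Pool.Agent.P.MP_a54059_lc.Mono
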