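import Pool.Agent.P.MP_a54059_lc.MonoAmp

/-! Thresholds in every depth. -/

namespace Pool.Agent.P.MP_a54059_lc.Mono

open Finset

variable {α : Type} [DecidableEq α]

lemma layer (Q : Finset α) {M b G s S d : ℕ} (hM : 1 ≤ M) (hb : 1 ≤ b) (hG : 1 ≤ G) (hs : 2 ≤ s)
    (hthr : ∀ B : Finset α, #B ≤ b → ∀ t, Circ s (d + 2) false fun X => t ≤ #(X ∩ B))
    (hgap : ∀ P : Finset α, #P ≤ M * b →
      Gap (Circ s (d + 2) false) (fun f X => ¬ f X) P M (M * b) G)
    (h1 : ((M * b + 1) ^ 2 * (M * G) ^ M) ^ (#Q / (M * b) + 1) ≤ S)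
    (h2 : (#Q / (M * b) + 1) * (M * (b + 1)) * (s * s) ≤ S) (t : ℕ) :
    Circ S (d + 3) true fun X => t ≤ #(X ∩ Q) := by
  obtain ⟨P, B, 𝒟, hB, h3, h4, h5⟩ := grid Q hM hb hG hgap t
  refine (Circ.or 𝒟 (h3.trans h1) _ fun f hf => ?_).congr fun X => (h5 X).symm
  refine ((Circ.and_merge ({x ∈ (univ ×ˢ univ ×ˢ range (b + 1) :
      Finset (Fin (#Q / (M * b) + 1) × Fin M × ℕ)) | x.2.2 ≤ #(B x.1 x.2.1)})
    (a := (#Q / (M * b) + 1) * (M * (b + 1))) (Nat.succ_le_of_lt (by positivity))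
    ((card_filter_le _ _).trans (by simp)) _ fun x _ => Circ.or_false hs
      (hthr _ (hB x.1 x.2.1) (x.2.2 + 1))
      ((h4 f hf x.1 ((f x.1).1 + (x.2.2 + (M * G - (f x.1).2.1 x.2.1)) % (M * G) - x.2.2)).inter
        (P x.1 \ B x.1 x.2.1))).mono h2).congr fun X => ⟨fun h x hx => ?_, fun h j i a ha hX => ?_⟩
  · have := h x.1 x.2.1 x.2.2 (mem_filter.1 hx).2
    rw [inter_sdiff_assoc, not_not] at this
    exact (Nat.lt_or_ge _ _).imp id this
  · have := h (j, i, a) (mem_filter.2 ⟨by simpa [Nat.lt_succ_iff] using ha.trans (hB j i), ha⟩)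
    rw [inter_sdiff_assoc, not_not]
    exact this.resolve_left (by dsimp only; omega)

theorem deep (d : ℕ) : ∃ C : ℕ, ∀ (α : Type) [DecidableEq α] [Fintype α] (E : ℕ),
    2 ^ (9 * (d + 2)) ≤ E → ∀ Q : Finset α, #Q * Nat.log 2 (Nat.log 2 E) ^ d ≤ E ^ (d + 1) →
      ∀ (top : Bool) (t : ℕ), Circ (2 ^ (C * E)) (d + 2) top fun X => t ≤ #(X ∩ Q) := by
  induction d with
  | zero =>
    refine ⟨1, fun α _ _ E _ Q hQ => Circ.thr_dual Q fun t => ?_⟩
    rw [one_mul]
    exact Circ.base Q (by simpa using hQ) t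
  | succ d ih =>
    obtain ⟨C, hC⟩ := ih
    refine ⟨12 * (d + 2) + 33 + 2 * (C + 14), fun α _ _ E hE Q hQ => Circ.thr_dual Q fun t => ?_⟩
    have hE' : 2 ^ (9 * (d + 2)) ≤ E := (Nat.pow_le_pow_right (by norm_num) (by omega)).trans hE
    have hC' := hC α E hE'
    obtain ⟨L, hL⟩ : ∃ L, L = Nat.log 2 E := ⟨_, rfl⟩
    obtain ⟨l, hl⟩ : ∃ l, l = Nat.log 2 L := ⟨_, rfl⟩
    obtain ⟨D, hD⟩ : ∃ D, D = d + 2 := ⟨_, rfl⟩
    rw [← hL, ← hl] at hQ hC'
    have hE0 : 0 < E := lt_of_lt_of_le (by positivity) hE'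
    have hLD : 9 * D ≤ L := hL ▸ hD ▸ Nat.le_log_of_pow_le (by norm_num) hE'
    have hEL : E < 2 ^ (L + 1) := hL ▸ Nat.lt_pow_succ_log_self (by norm_num) E
    have hLE : L * L ≤ E := by
      have h1 : ∀ n : ℕ, (n + 4) * (n + 4) ≤ 2 ^ (n + 4) := by
        intro n
        induction n with
        | zero => norm_num
        | succ n ih => rw [show n + 1 + 4 = n + 4 + 1 by ring, pow_succ]; nlinarith
      have h2 := h1 (L - 4)
      rw [show L - 4 + 4 = L by omega] at h2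
      exact h2.trans (hL ▸ Nat.pow_log_le_self 2 hE0.ne')
    have hl1 : 1 ≤ l := hl ▸ Nat.le_log_of_pow_le (by norm_num) (by omega)
    have hLl : L < 2 ^ (l + 1) := hl ▸ Nat.lt_pow_succ_log_self (by norm_num) L
    have hlL : l ≤ L := hl ▸ Nat.log_le_self 2 L
    have hL1 : L ≤ L * L := Nat.le_mul_self L
    obtain ⟨b, hb⟩ : ∃ b, b = E ^ (d + 1) / l ^ d := ⟨_, rfl⟩
    have hld : 0 < l ^ d := by positivity
    have hb1 : b * l ^ d ≤ E ^ (d + 1) := hb ▸ Nat.div_mul_le_self _ _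
    have hb0 : 1 ≤ b := by
      rw [hb]
      exact (Nat.le_div_iff_mul_le hld).2 (by
        rw [one_mul]
        exact (Nat.pow_le_pow_left (by omega) d).trans (Nat.pow_le_pow_right hE0 (by omega)))
    have hb2 : E ^ (d + 1) ≤ 2 * b * l ^ d := by
      have h1 : E ^ (d + 1) < l ^ d * (b + 1) := hb ▸ Nat.lt_mul_div_succ _ hld
      have h2 : l ^ d * (b + 1) ≤ l ^ d * (2 * b) := Nat.mul_le_mul_left _ (by omega)
      linarith
    have hbE : b ≤ E ^ (d + 1) := hb ▸ Nat.div_le_self _ _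
    have hm : L * b < 2 ^ (2 * (D * L)) := by
      calc L * b ≤ E * E ^ (d + 1) := Nat.mul_le_mul (by omega) hbE
        _ = E ^ D := by rw [hD]; ring
        _ < (2 ^ (L + 1)) ^ D := Nat.pow_lt_pow_left hEL (by omega)
        _ ≤ (2 ^ (2 * L)) ^ D := Nat.pow_le_pow_left (Nat.pow_le_pow_right (by norm_num) (by omega)) _
        _ = _ := by rw [← pow_mul]; congr 1; ring
    have hDL : 9 * (D * L) ≤ E := by
      rw [← mul_assoc]; exact (Nat.mul_le_mul_right _ hLD).trans hLE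
    have hDL1 : 2 ≤ D * L := by
      have := Nat.mul_le_mul (show 2 ≤ D by omega) (show 1 ≤ L by omega)
      omega
    have hJ : (#Q / (L * b) + 1) * L * l ≤ 3 * E := by
      have e1 : #Q / (L * b) * L ≤ #Q / b := by
        rw [mul_comm L b, ← Nat.div_div_eq_div_mul]
        exact Nat.div_mul_le_self _ _
      have e2 : #Q * l ≤ 2 * E * b := by
        refine Nat.le_of_mul_le_mul_right ?_ hld
        calc #Q * l * l ^ d = #Q * l ^ (d + 1) := by ring
          _ ≤ E ^ (d + 1 + 1) := hQ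
          _ = E * E ^ (d + 1) := by ring
          _ ≤ E * (2 * b * l ^ d) := Nat.mul_le_mul_left _ hb2
          _ = _ := by ring
      have e3 : #Q / b * l ≤ 2 * E := by
        refine Nat.le_of_mul_le_mul_right (le_trans ?_ e2) hb0
        rw [mul_right_comm]
        exact Nat.mul_le_mul_right _ (Nat.div_mul_le_self _ _)
      have e4 := Nat.mul_le_mul_right l e1
      have e5 := Nat.mul_le_mul_left L hlL
      rw [add_mul, add_mul, one_mul]
      omega
    have hJ' : (#Q / (L * b) + 1) * L ≤ 3 * E := (Nat.le_mul_of_pos_right _ hl1).trans hJ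
    have hpow : ∀ {x y : ℕ}, x ≤ y → 2 ^ x ≤ 2 ^ y := Nat.pow_le_pow_right (by norm_num)
    refine layer Q (M := L) (b := b) (G := 2 * L * (9 * (D * L))) (s := 2 ^ ((C + 14) * E))
      (by omega) hb0 (Nat.mul_pos (by omega) (by omega))
      (hpow (x := 1) (Nat.mul_pos (by omega) hE0))
      (fun B hB t => (hC' B ((Nat.mul_le_mul_right _ hB).trans hb1) false t).mono
        (hpow (Nat.mul_le_mul_right _ (by omega))))
      (fun P hP u 𝒯 Y hY => ?_) ?_ ?_ t
    · obtain ⟨F, h1, h2⟩ := gap_deep (d := d + 1) (E := E) (g := 9 * (D * L))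
        (G := 2 * L * (9 * (D * L))) (by omega) (Nat.mul_pos (by omega) hb0)
        (hm.le.trans (hpow (by omega)))
        (by
          calc 56 * (L * b) ^ 3 ≤ 2 ^ 6 * (2 ^ (2 * (D * L))) ^ 3 := by gcongr; norm_num
            _ = 2 ^ (6 + 2 * (D * L) * 3) := by rw [← pow_mul, ← pow_add]
            _ ≤ _ := hpow (by omega))
        hDL
        (by
          calc 2 * (L * b) * (9 * (D * L)) = 2 * L * (9 * (D * L)) * b := by ring
            _ ≤ _ := Nat.mul_le_mul_left _ hbE)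
        P hP u 𝒯 Y hY
      exact ⟨F, h1.mono (hpow (Nat.mul_le_mul_right _ (by omega))), h2⟩
    · have e1 : L * (2 * L * (9 * (D * L))) ≤ 2 ^ (10 * l) := by
        calc L * (2 * L * (9 * (D * L))) = 2 * (9 * D) * L ^ 3 := by ring
          _ ≤ L * L * L ^ 3 := by gcongr; omega
          _ = L ^ 5 := by ring
          _ ≤ (2 ^ (2 * l)) ^ 5 := Nat.pow_le_pow_left (hLl.le.trans (hpow (by omega))) _
          _ = _ := by rw [← pow_mul]; congr 1; ring
      have e2 : L * b + 1 ≤ 2 ^ (2 * (D * L)) := hm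
      calc _ ≤ ((2 ^ (2 * (D * L))) ^ 2 * (2 ^ (10 * l)) ^ L) ^ (#Q / (L * b) + 1) :=
            Nat.pow_le_pow_left (Nat.mul_le_mul (Nat.pow_le_pow_left e2 _)
              (Nat.pow_le_pow_left e1 _)) _
        _ = 2 ^ (4 * D * ((#Q / (L * b) + 1) * L) + 10 * ((#Q / (L * b) + 1) * L * l)) := by
            rw [← pow_mul, ← pow_mul, ← pow_add, ← pow_mul]; congr 1; ring
        _ ≤ 2 ^ (4 * D * (3 * E) + 10 * (3 * E)) :=
            hpow (Nat.add_le_add (Nat.mul_le_mul_left _ hJ') (Nat.mul_le_mul_left _ hJ))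
        _ = 2 ^ ((12 * (d + 2) + 30) * E) := by rw [hD]; congr 1; ring
        _ ≤ _ := hpow (Nat.mul_le_mul_right _ (by omega))
    · have e1 : b + 1 ≤ 2 ^ E := by
        have : b ≤ L * b := Nat.le_mul_of_pos_left _ (by omega)
        exact le_trans (by omega) (hpow (x := 2 * (D * L)) (by omega))
      have e2 : 3 * E ≤ 2 ^ (2 * E) := by
        have h1 : E < 2 ^ E := Nat.lt_two_pow_self
        have h2 : 2 ^ 2 ≤ 2 ^ E := hpow (by omega)
        rw [two_mul, pow_add]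
        exact Nat.mul_le_mul (by omega) h1.le
      calc _ = (#Q / (L * b) + 1) * L * (b + 1) * (2 ^ ((C + 14) * E) * 2 ^ ((C + 14) * E)) := by
            ring
        _ ≤ 2 ^ (2 * E) * 2 ^ E * (2 ^ ((C + 14) * E) * 2 ^ ((C + 14) * E)) :=
            Nat.mul_le_mul_right _ (Nat.mul_le_mul (hJ'.trans e2) e1)
        _ = 2 ^ ((3 + 2 * (C + 14)) * E) := by
            rw [← pow_add, ← pow_add, ← pow_add]; congr 1; ring
        _ ≤ _ := hpow (Nat.mul_le_mul_right _ (by omega))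

end Pool.Agent.P.MP_a54059_lc.Mono
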