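import Mathlib

namespace Pool.Agent.P.MP_a54059_lc.Mono

/-- `Circ s d top f`: the Boolean function `f` (an input is the set of variables equal to one) is
computed by a monotone formula with `d` alternating layers of OR and AND gates, each of fan-in at
most `s`; the top gate is OR if `top = true` and AND if `top = false`; the leaves are variables
and constants. -/
def Circ {α : Type} (s : ℕ) : ℕ → Bool → (Finset α → Prop) → Prop
  | 0, _, f => (∃ v, ∀ X, f X ↔ v ∈ X) ∨ (∀ X, f X) ∨ ∀ X, ¬ f X
  | d + 1, true, f => ∃ m ≤ s, ∃ g : Fin m → Finset α → Prop,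
      (∀ i, Circ s d false (g i)) ∧ ∀ X, f X ↔ ∃ i, g i X
  | d + 1, false, f => ∃ m ≤ s, ∃ g : Fin m → Finset α → Prop,
      (∀ i, Circ s d true (g i)) ∧ ∀ X, f X ↔ ∀ i, g i X

end Pool.Agent.P.MP_a54059_lc.Mono
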