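import Pool.Agent.P.MP_a54059_lc.Core

/-! Two concrete potentials. -/

namespace Pool.Agent.P.MP_a54059_lc

open intervalIntegral

/-- the exponential potential -/
noncomputable def chiE (σ : ℝ) (k : ℕ) (b x : ℕ) : ℝ :=
  if b = 0 then 1 else ∫ θ in (0 : ℝ)..1, θ ^ b * Real.exp ((σ - 1 + θ) * (x / k))

lemma int_mul_exp (c : ℝ) : ∫ θ in (0 : ℝ)..1, θ * Real.exp (c + θ) = Real.exp c := by
  have h : ∀ θ ∈ Set.uIcc (0 : ℝ) 1,
      HasDerivAt (fun θ => (θ - 1) * Real.exp (c + θ)) (θ * Real.exp (c + θ)) θ := by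
    intro θ _
    have h1 : HasDerivAt (fun θ : ℝ => θ - 1) 1 θ := (hasDerivAt_id θ).sub_const 1
    have h2 : HasDerivAt (fun θ : ℝ => Real.exp (c + θ)) (Real.exp (c + θ) * 1) θ :=
      ((hasDerivAt_id θ).const_add c).exp
    exact (h1.mul h2).congr_deriv (by ring)
  rw [integral_eq_sub_of_hasDerivAt h (by apply Continuous.intervalIntegrable; fun_prop)]
  simp

lemma chiE_one_le {σ : ℝ} (h2 : σ ≤ 1 / 2) (h3 : Real.exp (σ - 1) ≤ 1 - σ) {k x : ℕ}
    (hk : 0 < k) (hx : x ≤ k) : chiE σ k 1 x ≤ 1 - σ := by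
  have hk' : (0 : ℝ) < k := by exact_mod_cast hk
  set t : ℝ := x / k with ht
  have t0 : 0 ≤ t := by positivity
  have t1 : t ≤ 1 := by rw [ht, div_le_one hk']; exact_mod_cast hx
  unfold chiE
  rw [if_neg one_ne_zero]
  have hle : ∫ θ in (0 : ℝ)..1, θ ^ 1 * Real.exp ((σ - 1 + θ) * (x / k))
      ≤ ∫ θ in (0 : ℝ)..1, ((1 - t) * θ + t * (θ * Real.exp (σ - 1 + θ))) := by
    apply integral_mono_on zero_le_one
      (by apply Continuous.intervalIntegrable; fun_prop)
      (by apply Continuous.intervalIntegrable; fun_prop)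
    intro θ hθ
    have := convexOn_exp.2 (Set.mem_univ (0 : ℝ)) (Set.mem_univ (σ - 1 + θ))
      (sub_nonneg.2 t1) t0 (by ring)
    simp only [smul_eq_mul, mul_zero, zero_add, Real.exp_zero, mul_one] at this
    rw [← ht, pow_one, mul_comm (σ - 1 + θ) t]
    nlinarith [mul_le_mul_of_nonneg_left this hθ.1]
  rw [integral_add (by apply Continuous.intervalIntegrable; fun_prop)
      (by apply Continuous.intervalIntegrable; fun_prop), integral_const_mul, integral_const_mul,
      int_mul_exp, integral_id] at hle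
  nlinarith

lemma good_exp {σ : ℝ} (h1 : 1 / 3 ≤ σ) (h2 : σ ≤ 1 / 2) (h3 : Real.exp (σ - 1) ≤ 1 - σ)
    {k : ℕ} (hk : 0 < k) : Good k (Real.exp (σ / k)) (chiE σ k) := by
  have hk' : (0 : ℝ) < k := by exact_mod_cast hk
  have hpow : ∀ s : ℕ, Real.exp (σ / k) ^ s = Real.exp (σ * (s / k)) := by
    intro s; rw [← Real.exp_nat_mul]; congr 1; ring
  refine ⟨hk, Real.one_le_exp (by positivity), ?_, ?_, ?_, ?_, ?_⟩
  · have h4 : 1 - 1 / (k : ℝ) ≤ Real.exp (-(σ / k)) := by
      have := Real.add_one_le_exp (-(σ / k))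
      have h5 : σ / k ≤ 1 / k := by gcongr; linarith
      linarith
    calc Real.exp (σ / k) * (1 - 1 / (k : ℝ)) ≤ Real.exp (σ / k) * Real.exp (-(σ / k)) := by
          gcongr
      _ = 1 := by rw [← Real.exp_add]; simp
  · intro x _; simp [chiE]
  · intro b x _
    unfold chiE
    split_ifs with hb
    · simp [hb]
    have hb1 : (1 : ℝ) ≤ b := by exact_mod_cast Nat.one_le_iff_ne_zero.2 hb
    set t : ℝ := x / k with ht
    have t0 : 0 ≤ t := by positivity
    have hle : ∫ θ in (0 : ℝ)..1, ((1 + (σ - 1) * t) * θ ^ b + t * θ ^ (b + 1))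
        ≤ ∫ θ in (0 : ℝ)..1, θ ^ b * Real.exp ((σ - 1 + θ) * t) := by
      apply integral_mono_on zero_le_one
        (by apply Continuous.intervalIntegrable; fun_prop)
        (by apply Continuous.intervalIntegrable; fun_prop)
      intro θ hθ
      have := Real.add_one_le_exp ((σ - 1 + θ) * t)
      have h0 : 0 ≤ θ ^ b := pow_nonneg hθ.1 b
      rw [pow_succ]
      nlinarith [mul_le_mul_of_nonneg_left this h0]
    rw [integral_add (by apply Continuous.intervalIntegrable; fun_prop)
      (by apply Continuous.intervalIntegrable; fun_prop), integral_const_mul, integral_const_mul,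
      integral_pow, integral_pow] at hle
    refine le_trans ?_ hle
    simp only [one_pow, ne_eq, Nat.add_eq_zero_iff, one_ne_zero, and_false, not_false_eq_true,
      zero_pow, sub_zero]
    push_cast
    have e : (1 + (σ - 1) * t) * (1 / ((b : ℝ) + 1)) + t * (1 / ((b : ℝ) + 1 + 1))
        = 1 / ((b : ℝ) + 1) + t * (((b + 1) - (1 - σ) * (b + 2)) / ((b + 1) * (b + 2))) := by
      field_simp; ring
    rw [e]
    have : 0 ≤ ((b : ℝ) + 1) - (1 - σ) * (b + 2) := by nlinarith
    have : 0 ≤ t * ((((b : ℝ) + 1) - (1 - σ) * (b + 2)) / ((b + 1) * (b + 2))) := by positivity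
    linarith
  · intro b x hbx
    rcases Nat.eq_zero_or_pos b with rfl | hb
    · have := chiE_one_le h2 h3 hk (x := x) (by omega)
      have e : chiE σ k 0 x = 1 := by simp [chiE]
      rw [e, zero_add]; linarith
    · unfold chiE
      rw [if_neg (Nat.succ_ne_zero b), if_neg hb.ne']
      apply integral_mono_on zero_le_one
        (by apply Continuous.intervalIntegrable; fun_prop)
        (by apply Continuous.intervalIntegrable; fun_prop)
      intro θ hθ
      apply mul_le_mul_of_nonneg_right _ (Real.exp_pos _).le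
      exact pow_le_pow_of_le_one hθ.1 hθ.2 (Nat.le_succ b)
  · intro b x s _ hbx
    set t : ℝ := s / k with ht
    have t0 : 0 ≤ t := by positivity
    rw [hpow, ← ht]
    rcases Nat.eq_zero_or_pos b with rfl | hb
    · have h5 := chiE_one_le h2 h3 hk (x := x) (by omega)
      have e : ∀ y, chiE σ k 0 y = 1 := by intro y; simp [chiE]
      rw [e, e, zero_add]
      have h6 := Real.add_one_le_exp (-(σ * t))
      have h7 : (1 - t) * 1 + t * chiE σ k 1 x ≤ Real.exp (-(σ * t)) := by nlinarith
      calc Real.exp (σ * t) * ((1 - t) * 1 + t * chiE σ k 1 x)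
          ≤ Real.exp (σ * t) * Real.exp (-(σ * t)) := by gcongr
        _ = 1 := by rw [← Real.exp_add]; simp
    · unfold chiE
      rw [if_neg (Nat.succ_ne_zero b), if_neg hb.ne', if_neg hb.ne', ← integral_const_mul,
        ← integral_const_mul, ← integral_add (by apply Continuous.intervalIntegrable; fun_prop)
        (by apply Continuous.intervalIntegrable; fun_prop), ← integral_const_mul]
      apply integral_mono_on zero_le_one
        (by apply Continuous.intervalIntegrable; fun_prop)
        (by apply Continuous.intervalIntegrable; fun_prop)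
      intro θ hθ
      have h6 := Real.add_one_le_exp ((θ - 1) * t)
      have e : Real.exp ((σ - 1 + θ) * (((x + s : ℕ) : ℝ) / k))
          = Real.exp (σ * t) * (Real.exp ((σ - 1 + θ) * (x / k)) * Real.exp ((θ - 1) * t)) := by
        rw [← Real.exp_add, ← Real.exp_add]; congr 1; rw [ht]; push_cast; ring
      rw [e, pow_succ]
      have h0 : 0 ≤ Real.exp (σ * t) * (θ ^ b * Real.exp ((σ - 1 + θ) * (x / k))) :=
        mul_nonneg (Real.exp_pos _).le (mul_nonneg (pow_nonneg hθ.1 b) (Real.exp_pos _).le)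
      nlinarith [mul_le_mul_of_nonneg_left h6 h0]

/-- the potential for windows of three points -/
noncomputable def chi3 (b x : ℕ) : ℝ :=
  if b = 1 ∧ x = 1 then 4 * 1.1869 / 9 else 1 / ((b : ℝ) + 1)

lemma good_three : Good 3 1.1869 chi3 := by
  refine ⟨by norm_num, by norm_num, by norm_num, ?_, ?_, ?_, ?_⟩
  · intro x _; simp [chi3]
  · intro b x _
    unfold chi3
    split_ifs with h
    · rw [h.1]; norm_num
    · exact le_rfl
  · intro b x h
    have hb : b ≤ 1 := by omega
    have hx : x ≤ 1 := by omega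
    interval_cases b <;> interval_cases x <;> first | omega | (norm_num [chi3])
  · intro b x s h1 h
    have hb : b ≤ 1 := by omega
    have hx : x ≤ 1 := by omega
    have hs : s ≤ 2 := by omega
    interval_cases b <;> interval_cases x <;> interval_cases s <;>
      first | omega | (norm_num [chi3])

end Pool.Agent.P.MP_a54059_lc
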