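import Pool.Agent.P.MP_a54059_lc.Pot

/-! From depth-three circuits for a threshold function to hit families. -/

namespace Pool.Agent.P.MP_a54059_lc

open Finset

lemma cover_bound {k : ℕ} {B : ℝ} {χ : ℕ → ℕ → ℝ} (h : Good k B χ) {n a b t r : ℕ}
    (P N : Fin a → Finset (Fin n)) (M : Fin b → Finset (Fin a))
    (hc : ∀ X : Finset (Fin n),
      (∃ j, ∀ i ∈ M j, (∃ v ∈ P i, v ∈ X) ∨ (∃ v ∈ N i, v ∉ X)) ↔ t ≤ X.card)
    (R : Finset (Fin n)) (hR : R.card + r = t)
    (hshort : ∀ i, Disjoint (P i) R → (P i).card ≤ k) :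
    ((n - R.card).choose r : ℝ) ≤ b * ((k / B ^ k) ^ r * B ^ (n - R.card)) := by
  classical
  have hU : (Rᶜ).card = n - R.card := by rw [card_compl, Fintype.card_fin]
  set F : Fin b → Finset (Finset (Fin n)) := fun j => (powersetCard r Rᶜ).filter
    (fun T => ∀ i ∈ M j, (∃ v ∈ P i, v ∈ R ∪ T) ∨ (∃ v ∈ N i, v ∉ R ∪ T)) with hF
  have hcard : ∀ T ⊆ Rᶜ, (R ∪ T).card = R.card + T.card := by
    intro T hT
    apply card_union_of_disjoint
    exact Finset.disjoint_left.2 (fun v hv hv' => (mem_compl.1 (hT hv')) hv)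
  have hcov : powersetCard r Rᶜ ⊆ univ.biUnion F := by
    intro T hT
    obtain ⟨h1, h2⟩ := mem_powersetCard.1 hT
    obtain ⟨j, hj⟩ := (hc (R ∪ T)).2 (by rw [hcard T h1]; omega)
    exact mem_biUnion.2 ⟨j, mem_univ _, mem_filter.2 ⟨hT, hj⟩⟩
  have hFj : ∀ j, ((F j).card : ℝ) ≤ (k / B ^ k) ^ r * B ^ (n - R.card) := by
    intro j
    rw [← hU]
    apply h.card_le (U := Rᶜ)
    · intro T hT
      exact (mem_powersetCard.1 (mem_filter.1 hT).1).2
    · intro S hS hSr
      have hrej : ¬ ∀ i ∈ M j, (∃ v ∈ P i, v ∈ R ∪ S) ∨ (∃ v ∈ N i, v ∉ R ∪ S) := by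
        intro hh
        have := (hc (R ∪ S)).1 ⟨j, hh⟩
        rw [hcard S hS] at this; omega
      push Not at hrej
      obtain ⟨i, hi, hP, hN⟩ := hrej
      refine ⟨P i, ?_, ?_, ?_⟩
      · intro v hv
        have := hP v hv
        rw [mem_union, not_or] at this
        exact mem_sdiff.2 ⟨mem_compl.2 this.1, this.2⟩
      · apply hshort
        exact Finset.disjoint_left.2 (fun v hv hv' => hP v hv (mem_union_left _ hv'))
      · intro T hT hST
        rcases (mem_filter.1 hT).2 i hi with ⟨v, hv, hv'⟩ | ⟨v, hv, hv'⟩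
        · rcases mem_union.1 hv' with h1 | h1
          · exact absurd (mem_union_left _ h1) (hP v hv)
          · exact ⟨v, mem_inter.2 ⟨h1, hv⟩⟩
        · exact absurd (union_subset_union_right hST (hN v hv)) hv'
  have h1 : (n - R.card).choose r ≤ ∑ j, (F j).card := by
    rw [← hU, ← card_powersetCard]
    exact (card_le_card hcov).trans card_biUnion_le
  calc ((n - R.card).choose r : ℝ) ≤ ∑ j, ((F j).card : ℝ) := by exact_mod_cast h1
    _ ≤ ∑ _j : Fin b, (k / B ^ k) ^ r * B ^ (n - R.card) := sum_le_sum (fun j _ => hFj j)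
    _ = _ := by simp

lemma choose_sub_mul_pow_le (n ρ w : ℕ) :
    (n - w).choose ρ * n ^ w ≤ n.choose ρ * (n - ρ) ^ w := by
  induction w with
  | zero => simp
  | succ w ih =>
    rcases le_or_gt n w with hw | hw
    · rcases Nat.eq_zero_or_pos ρ with rfl | hρ
      · simp
      · have : n - (w + 1) = 0 := by omega
        rw [this, Nat.choose_eq_zero_of_lt hρ]; simp
    have e := Nat.choose_mul_succ_eq (n - (w + 1)) ρ
    have e1 : n - (w + 1) + 1 = n - w := by omega
    rw [e1] at e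
    have key : (n - (w + 1)).choose ρ * n ≤ (n - w).choose ρ * (n - ρ) := by
      apply Nat.le_of_mul_le_mul_right _ (show 0 < n - w by omega)
      have h2 : (n - w - ρ) * n ≤ (n - ρ) * (n - w) := by
        rcases le_or_gt (n - w) ρ with h3 | h3
        · have : n - w - ρ = 0 := by omega
          rw [this]; simp
        · obtain ⟨c, hc⟩ : ∃ c, n = w + ρ + c := ⟨n - w - ρ, by omega⟩
          have f1 : n - w - ρ = c := by omega
          have f2 : n - ρ = w + c := by omega
          have f3 : n - w = ρ + c := by omega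
          rw [f1, f2, f3, hc]; nlinarith [Nat.zero_le (w * ρ)]
      calc (n - (w + 1)).choose ρ * n * (n - w) = ((n - (w + 1)).choose ρ * (n - w)) * n := by ring
        _ = (n - w).choose ρ * ((n - w - ρ) * n) := by rw [e]; ring
        _ ≤ (n - w).choose ρ * ((n - ρ) * (n - w)) := Nat.mul_le_mul_left _ h2
        _ = _ := by ring
    calc (n - (w + 1)).choose ρ * n ^ (w + 1) = ((n - (w + 1)).choose ρ * n) * n ^ w := by ring
      _ ≤ ((n - w).choose ρ * (n - ρ)) * n ^ w := Nat.mul_le_mul_right _ key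
      _ = ((n - w).choose ρ * n ^ w) * (n - ρ) := by ring
      _ ≤ (n.choose ρ * (n - ρ) ^ w) * (n - ρ) := Nat.mul_le_mul_right _ ih
      _ = _ := by ring

/-- a restriction killing all clauses with many positive literals -/
lemma exists_restriction {n a k ρ : ℕ} (P : Fin a → Finset (Fin n)) (hρ : ρ ≤ n)
    (h : a * (n - ρ) ^ (k + 1) < n ^ (k + 1)) :
    ∃ R : Finset (Fin n), R.card = ρ ∧ ∀ i, Disjoint (P i) R → (P i).card ≤ k := by
  classical
  by_contra hcon
  push Not at hcon
  set G : Fin a → Finset (Finset (Fin n)) := fun i =>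
    if k < (P i).card then powersetCard ρ (P i)ᶜ else ∅ with hG
  have hcov : powersetCard ρ (univ : Finset (Fin n)) ⊆ univ.biUnion G := by
    intro R hR
    obtain ⟨i, h1, h2⟩ := hcon R (mem_powersetCard.1 hR).2
    refine mem_biUnion.2 ⟨i, mem_univ _, ?_⟩
    simp only [hG, h2, if_true]
    refine mem_powersetCard.2 ⟨fun v hv => mem_compl.2 (fun hv' => ?_), (mem_powersetCard.1 hR).2⟩
    exact Finset.disjoint_left.1 h1 hv' hv
  have hGi : ∀ i, (G i).card ≤ (n - (k + 1)).choose ρ := by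
    intro i
    simp only [hG]
    split_ifs with h1
    · rw [card_powersetCard, card_compl, Fintype.card_fin]
      exact Nat.choose_le_choose _ (by omega)
    · simp
  have h1 : n.choose ρ ≤ a * (n - (k + 1)).choose ρ := by
    have := (card_le_card hcov).trans card_biUnion_le
    rw [card_powersetCard, card_univ, Fintype.card_fin] at this
    refine this.trans ((sum_le_sum (fun i _ => hGi i)).trans ?_)
    simp
  have h2 := choose_sub_mul_pow_le n ρ (k + 1)
  have h3 : 0 < n.choose ρ := Nat.choose_pos hρ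
  have h4 : n.choose ρ * n ^ (k + 1) ≤ n.choose ρ * (a * (n - ρ) ^ (k + 1)) := by
    calc n.choose ρ * n ^ (k + 1) ≤ a * (n - (k + 1)).choose ρ * n ^ (k + 1) :=
          Nat.mul_le_mul_right _ h1
      _ = a * ((n - (k + 1)).choose ρ * n ^ (k + 1)) := by ring
      _ ≤ a * (n.choose ρ * (n - ρ) ^ (k + 1)) := Nat.mul_le_mul_left _ h2
      _ = _ := by ring
  have := Nat.le_of_mul_le_mul_left h4 h3
  omega

lemma factorial_le_stir (r : ℕ) (hr : 1 ≤ r) :
    (r.factorial : ℝ) ≤ r * r ^ r * Real.exp (1 - r) := by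
  induction r, hr using Nat.le_induction with
  | base => simp
  | succ r hr ih =>
    have hr' : (0 : ℝ) < r := by exact_mod_cast hr
    have h1 : (r : ℝ) / (r + 1) ≤ Real.exp (-(1 / ((r : ℝ) + 1))) := by
      have := Real.add_one_le_exp (-(1 / ((r : ℝ) + 1)))
      have e : (r : ℝ) / (r + 1) = -(1 / ((r : ℝ) + 1)) + 1 := by field_simp; ring
      rw [e]; exact this
    have h2 : ((r : ℝ) / (r + 1)) ^ (r + 1) ≤ Real.exp (-1) := by
      calc ((r : ℝ) / (r + 1)) ^ (r + 1) ≤ Real.exp (-(1 / ((r : ℝ) + 1))) ^ (r + 1) := by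
            gcongr
        _ = Real.exp (-1) := by
            rw [← Real.exp_nat_mul]; congr 1; push_cast; field_simp
    rw [div_pow, div_le_iff₀ (by positivity)] at h2
    rw [Nat.factorial_succ]
    push_cast
    have e : Real.exp (1 - ((r : ℝ) + 1)) = Real.exp (1 - r) * Real.exp (-1) := by
      rw [← Real.exp_add]; congr 1; ring
    rw [e]
    have hE := Real.exp_pos (1 - (r : ℝ))
    calc ((r : ℝ) + 1) * (r.factorial : ℝ) ≤ (r + 1) * (r * r ^ r * Real.exp (1 - r)) := by gcongr
      _ = (r + 1) * Real.exp (1 - r) * (r : ℝ) ^ (r + 1) := by ring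
      _ ≤ (r + 1) * Real.exp (1 - r) * (Real.exp (-1) * ((r : ℝ) + 1) ^ (r + 1)) := by gcongr
      _ = _ := by ring

end Pool.Agent.P.MP_a54059_lc
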