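import Pool.Agent.P.MP_a54059_lc.Restrict

/-! The lower bound for clauses with at most three positive literals. -/

namespace Pool.Agent.P.MP_a54059_lc

open Finset Filter

lemma choose_lower (N r : ℕ) (hN : 1 ≤ N) (hr : 1 ≤ r) :
    ((N : ℝ) + r) ^ (N + r) ≤ ((N + r).choose r : ℝ) * (Real.exp 2 * N * r * N ^ N * r ^ r) := by
  have h1 := Real.pow_div_factorial_le_exp ((N : ℝ) + r) (by positivity) (N + r)
  rw [div_le_iff₀ (by positivity)] at h1
  have h2 : ((N + r).factorial : ℝ) = (N + r).choose r * N.factorial * r.factorial := by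
    exact_mod_cast (Nat.add_choose_mul_factorial_mul_factorial N r).symm
  have h3 := factorial_le_stir N hN
  have h4 := factorial_le_stir r hr
  have e : Real.exp ((N : ℝ) + r) * (Real.exp (1 - N) * Real.exp (1 - r)) = Real.exp 2 := by
    rw [← Real.exp_add, ← Real.exp_add]; congr 1; ring
  rw [h2] at h1
  calc ((N : ℝ) + r) ^ (N + r) ≤ _ := h1
    _ ≤ Real.exp ((N : ℝ) + r) * ((N + r).choose r * (N * N ^ N * Real.exp (1 - N))
          * (r * r ^ r * Real.exp (1 - r))) := by gcongr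
    _ = ((N + r).choose r : ℝ) * ((Real.exp ((N : ℝ) + r) * (Real.exp (1 - N) * Real.exp (1 - r)))
          * N * r * N ^ N * r ^ r) := by ring
    _ = _ := by rw [e]

lemma three_eventually : ∃ N₀ : ℕ, ∀ N ≥ N₀, 13 * (N : ℝ) ^ 2 ≤ 1.0002 ^ N := by
  have h := tendsto_pow_const_div_const_pow_of_one_lt 2 (show (1 : ℝ) < 1.0002 by norm_num)
  have h2 := h.eventually (gt_mem_nhds (show (0 : ℝ) < 1 / 13 by norm_num))
  obtain ⟨N₀, hN₀⟩ := eventually_atTop.1 h2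
  refine ⟨N₀, fun N hN => ?_⟩
  have := hN₀ N hN
  rw [div_lt_iff₀ (by positivity)] at this
  linarith

theorem three_bound : ∃ n₀ : ℕ, ∀ n ≥ n₀, ∀ t : ℕ, n ≤ 2 * t → 2 * t ≤ n + 2 →
    ∀ (a b : ℕ) (P N : Fin a → Finset (Fin n)) (M : Fin b → Finset (Fin a)),
    (∀ i, (P i).card ≤ 3) →
    (∀ X : Finset (Fin n),
      (∃ j, ∀ i ∈ M j, (∃ v ∈ P i, v ∈ X) ∨ (∃ v ∈ N i, v ∉ X)) ↔ t ≤ X.card) →
    (1.26 : ℝ) ^ n ≤ b := by
  obtain ⟨N₀, hN₀⟩ := three_eventually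
  refine ⟨2 * N₀ + 30000, fun n hn t ht1 ht2 a b P N M h3 hc => ?_⟩
  set K : ℕ := n - t with hK
  have hK1 : N₀ ≤ K := by omega
  have hK2 : (10000 : ℝ) ≤ K := by exact_mod_cast (by omega : 10000 ≤ K)
  set r : ℕ := ⌊0.885 * (K : ℝ)⌋₊ with hr
  have hr1 : (r : ℝ) ≤ 0.885 * K := Nat.floor_le (by positivity)
  have hr2 : 0.885 * (K : ℝ) < r + 1 := Nat.lt_floor_add_one _
  have hr3 : 1 ≤ r := by
    have : (1 : ℝ) ≤ r := by linarith
    exact_mod_cast this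
  have hr4 : r ≤ K := by
    have : (r : ℝ) ≤ K := by linarith
    exact_mod_cast this
  obtain ⟨R, -, hR⟩ := exists_subset_card_eq (s := (univ : Finset (Fin n))) (n := t - r)
    (by rw [card_univ, Fintype.card_fin]; omega)
  have hcb := cover_bound good_three P N M hc R (r := r) (by omega) (fun i _ => h3 i)
  have hm : n - R.card = K + r := by omega
  rw [hm] at hcb
  have hcl := choose_lower K r (by omega) hr3
  have hKpos : (0 : ℝ) < K := by linarith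
  have hrpos : (0 : ℝ) < r := by exact_mod_cast hr3
  have f1 : ((3 : ℕ) / (1.1869 : ℝ) ^ 3 * 1.1869 * r) ^ r ≤ ((K : ℝ) + r) ^ r := by
    gcongr
    norm_num
    linarith
  have f2 : (1.588 * (1.1869 * K) : ℝ) ^ K ≤ ((K : ℝ) + r) ^ K := by
    gcongr
    linarith
  have he : Real.exp 2 ≤ 8 := by
    have h8 : Real.exp 2 = Real.exp 1 ^ 2 := by rw [← Real.exp_nat_mul]; norm_num
    rw [h8]
    have := Real.exp_one_lt_d9
    have := Real.exp_pos 1
    nlinarith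
  set D : ℝ := ((3 : ℕ) / (1.1869 : ℝ) ^ 3 * 1.1869 * r) ^ r * (1.1869 * K) ^ K with hD
  have hDpos : 0 < D := by positivity
  have f3 : 1.588 ^ K * D ≤ (b * (8 * (K : ℝ) ^ 2)) * D := by
    calc 1.588 ^ K * D = (1.588 * (1.1869 * K) : ℝ) ^ K
          * ((3 : ℕ) / (1.1869 : ℝ) ^ 3 * 1.1869 * r) ^ r := by rw [hD, mul_pow 1.588]; ring
      _ ≤ ((K : ℝ) + r) ^ K * ((K : ℝ) + r) ^ r := by gcongr
      _ = ((K : ℝ) + r) ^ (K + r) := (pow_add _ _ _).symm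
      _ ≤ _ := hcl
      _ ≤ (b * (((3 : ℕ) / (1.1869 : ℝ) ^ 3) ^ r * 1.1869 ^ (K + r)))
          * (8 * K * K * K ^ K * r ^ r) := by
        gcongr
      _ = _ := by rw [hD, mul_pow, mul_pow, mul_pow, pow_add]; ring
  have f4 := le_of_mul_le_mul_right f3 hDpos
  have f5 := hN₀ K hK1
  have f6 : (1.26 : ℝ) ^ n ≤ 1.5876 * 1.5876 ^ K := by
    calc (1.26 : ℝ) ^ n ≤ 1.26 ^ (2 * (K + 1)) := pow_le_pow_right₀ (by norm_num) (by omega)
      _ = 1.5876 * 1.5876 ^ K := by rw [pow_mul, pow_succ]; norm_num; ring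
  have f7 : (1.5876 : ℝ) ^ K * 1.0002 ^ K ≤ 1.588 ^ K := by
    rw [← mul_pow]; gcongr; norm_num
  have hp : (0 : ℝ) < 1.5876 ^ K := by positivity
  have hK' : (0 : ℝ) < 8 * (K : ℝ) ^ 2 := by positivity
  apply le_of_mul_le_mul_right _ hK'
  calc (1.26 : ℝ) ^ n * (8 * (K : ℝ) ^ 2) ≤ 1.5876 * 1.5876 ^ K * (8 * (K : ℝ) ^ 2) := by gcongr
    _ ≤ 1.5876 ^ K * (13 * (K : ℝ) ^ 2) := by nlinarith [mul_pos hp hK']
    _ ≤ 1.5876 ^ K * 1.0002 ^ K := by gcongr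
    _ ≤ _ := f7.trans f4

end Pool.Agent.P.MP_a54059_lc
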